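import Pool.Agent.Helper96.AD.A1
import Pool.Agent.Helper96.AD.A6
import Pool.Agent.Helper43.AD.A2
import Pool.Agent.Helper88.AD.A3
import Pool.Agent.Helper92.AD.A4
import Pool.Agent.Helper92.AD.A6
import Pool.Agent.Helper42.AD.A7
import Pool.Agent.Helper22.AE.K1

/-!
# AD-A8: the key proposition

The small part `|sin α| ≤ x^(-1/2)` of the average over `α`: `multiscale`, Cauchy-Schwarz (`cs_prod`, `fq_card`), Sobolev (`Yq_sob`) and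
`markov_holder` with the mean `Ys_mean`. The rest of the average is at most `C x^(3/2)` trivially.
-/

open MeasureTheory Real Set Filter Topology

set_option autoImplicit false

namespace Pool.Agent.Helper60.AD

open Pool.Agent.Helper22.AE
open Pool.Agent.Helper92.GC (dt sqa)
open Pool.Agent.Helper96.AD (cs_prod Yq_cont Yq_le Yq_mean)
open Pool.Agent.Helper43.AD (fq_card arc_child)
open Pool.Agent.Helper88.AD (lam_cont lam_blk)
open Pool.Agent.Helper92.AD (Yq_sob Ys_mean)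
open Pool.Agent.Helper42.AD (exponents2)

lemma k0_cont' {β : ℝ} (hβ : 0 < β) : Continuous (fun α : ℝ => k0 β α) := by
  unfold k0
  refine continuous_const.div (by fun_prop) ?_
  intro α
  positivity

lemma k0_nonneg' {β : ℝ} (hβ : 0 < β) (α : ℝ) : 0 ≤ k0 β α := by
  unfold k0
  positivity

/-- the part of the circle near `0` and `π` -/
def rg (x : ℝ) : Set ℝ := Icc (-π) π ∩ {α | 1 / 2 ≤ |cos α|} ∩ {α | |sin α| * x ^ (1 / 2 : ℝ) ≤ 1}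

theorem rg_meas (x : ℝ) : MeasurableSet (rg x) := by
  unfold rg
  refine (measurableSet_Icc.inter ?_).inter ?_
  · exact measurableSet_le measurable_const (by fun_prop)
  · exact measurableSet_le (by fun_prop) measurable_const

/-- the measure `k0 β α dα` on `rg x` -/
noncomputable def nuA (β x : ℝ) : Measure ℝ :=
  (volume.restrict (rg x)).withDensity (fun α => ENNReal.ofReal (k0 β α))

theorem rg_sub (x : ℝ) : rg x ⊆ Icc (-π) π := fun _ h => h.1.1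

theorem nuA_mass {β : ℝ} (hβ : 0 < β) (x : ℝ) : IsFiniteMeasure (nuA β x) ∧ (nuA β x).real univ ≤ 20 := by
  have hle : (nuA β x) univ ≤ ENNReal.ofReal 20 := by
    unfold nuA
    rw [withDensity_apply _ MeasurableSet.univ, Measure.restrict_univ]
    refine (lintegral_mono_set (rg_sub x)).trans ?_
    have hint : IntegrableOn (fun α : ℝ => k0 β α) (Icc (-π) π) :=
      (k0_cont' hβ).continuousOn.integrableOn_compact isCompact_Icc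
    rw [← ofReal_integral_eq_lintegral_ofReal hint (ae_of_all _ fun p => k0_nonneg' hβ _)]
    apply ENNReal.ofReal_le_ofReal
    have h3 : ∫ y in Icc (-π) π, k0 β y = ∫ y in (-π)..π, k0 β y := by
      rw [intervalIntegral.integral_of_le (by linarith [pi_pos]), integral_Icc_eq_integral_Ioc]
    rw [h3]
    exact k0_int hβ
  refine ⟨⟨lt_of_le_of_lt hle ENNReal.ofReal_lt_top⟩, ?_⟩
  rw [measureReal_def]
  calc ((nuA β x) univ).toReal ≤ (ENNReal.ofReal 20).toReal := ENNReal.toReal_mono ENNReal.ofReal_ne_top hle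
    _ = 20 := ENNReal.toReal_ofReal (by norm_num)

theorem nuA_int {β : ℝ} (hβ : 0 < β) (x : ℝ) (g : ℝ → ℝ) : ∫ α, g α ∂(nuA β x) = ∫ α in rg x, k0 β α * g α := by
  unfold nuA
  rw [integral_withDensity_eq_integral_toReal_smul (k0_cont' hβ).measurable.ennreal_ofReal
    (ae_of_all _ fun p => ENNReal.ofReal_lt_top)]
  refine integral_congr_ae (ae_of_all _ fun α => ?_)
  simp only
  rw [ENNReal.toReal_ofReal (k0_nonneg' hβ _), smul_eq_mul]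

theorem Sc_norm_le (h : ℝ → ℝ) (B : Finset (ℤ × ℤ)) (b : ℤ × ℤ → ℂ) (hb : ∀ k, ‖b k‖ ≤ 1) (R α : ℝ) (c : ℝ × ℝ) :
    ‖Sc h B b R α c‖ ≤ B.card := by
  unfold Sc
  refine (norm_sum_le _ _).trans ?_
  calc ∑ k ∈ B, ‖b k * ee (-(R * (nk k * gph h k α))) * ee (dt k c)‖ ≤ ∑ _k ∈ B, (1 : ℝ) := by
        refine Finset.sum_le_sum (fun k _ => ?_)
        rw [norm_mul, norm_mul, ee_norm, ee_norm, mul_one, mul_one]
        exact hb k
    _ = B.card := by simp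

theorem gph_cont {L : ℕ} {H₀ : ℝ → ℝ} (h0 : ContDiff ℝ 2 H₀) (w : (Fin L → ℝ) × (Fin L → ℝ)) (k : ℤ × ℤ) :
    Continuous (fun α : ℝ => gph (Hw H₀ w) k α) := by
  have h1 : ContDiff ℝ 2 (Hw H₀ w) := Hw_smooth h0 w
  have h2 : Continuous (deriv (Hw H₀ w)) := h1.continuous_deriv (by norm_num)
  have h3 := h1.continuous
  unfold gph
  fun_prop

theorem Sc_cont {L : ℕ} {H₀ : ℝ → ℝ} (h0 : ContDiff ℝ 2 H₀) (w : (Fin L → ℝ) × (Fin L → ℝ)) (B : Finset (ℤ × ℤ))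
    (b : ℝ → ℤ × ℤ → ℂ) (hb : ∀ k, Continuous (fun α => b α k)) (R : ℝ) (c : ℝ × ℝ) :
    Continuous (fun α : ℝ => Sc (Hw H₀ w) B (b α) R α c) := by
  unfold Sc
  refine continuous_finsetSum _ (fun k _ => ?_)
  have h1 := gph_cont h0 w k
  exact ((hb k).mul (ee_cont.comp (by fun_prop))).mul continuous_const

/-- the trivial bound for the part with `|sin α| > x^(-1/2)` -/
theorem out_le {β x : ℝ} (hβ : 0 < β) (hx : 1 ≤ x) (g : ℝ → ℝ) (hg : Continuous g) {G : ℝ} (hG : ∀ α, 0 ≤ g α ∧ g α ≤ G) :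
    ∫ α in (Icc (-π) π ∩ {α | 1 / 2 ≤ |cos α|}), k0 β α * g α ≤
      (∫ α in rg x, k0 β α * g α) + G * (β * (40 * x ^ (1 / 2 : ℝ))) := by
  have hx0 : 0 < x := by linarith
  have hG0 : 0 ≤ G := (hG 0).1.trans (hG 0).2
  set γ : ℝ := x ^ (-(1 / 2) : ℝ) with hγ
  have hγ0 : 0 < γ := Real.rpow_pos_of_pos hx0 _
  have hγx : γ * x ^ (1 / 2 : ℝ) = 1 := by
    rw [hγ, ← Real.rpow_add hx0]
    norm_num
  set T : Set ℝ := Icc (-π) π ∩ {α | 1 / 2 ≤ |cos α|} with hT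
  set U : Set ℝ := {α | |sin α| * x ^ (1 / 2 : ℝ) ≤ 1} with hU
  have hTm : MeasurableSet T := measurableSet_Icc.inter (measurableSet_le measurable_const (by fun_prop))
  have hUm : MeasurableSet U := measurableSet_le (by fun_prop) measurable_const
  have hkc := k0_cont' hβ
  have hint : IntegrableOn (fun α => k0 β α * g α) T :=
    ((hkc.mul hg).continuousOn.integrableOn_compact isCompact_Icc).mono_set inter_subset_left
  have hsplit : ∫ α in T, k0 β α * g α = (∫ α in T ∩ U, k0 β α * g α) + ∫ α in T \ U, k0 β α * g α :=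
    (integral_inter_add_sdiff hUm hint).symm
  have hrg : rg x = T ∩ U := rfl
  rw [hsplit, hrg]
  have hb : ∫ α in T \ U, k0 β α * g α ≤ ∫ α in T \ U, (G * β * (2 * x ^ (1 / 2 : ℝ))) * k0 γ α := by
    refine setIntegral_mono_on (hint.mono_set sdiff_subset) ?_ (hTm.diff hUm) ?_
    · exact ((continuous_const.mul (k0_cont' hγ0)).continuousOn.integrableOn_compact isCompact_Icc).mono_set
        (sdiff_subset.trans inter_subset_left)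
    · intro α hα
      have h1 : 1 < |sin α| * x ^ (1 / 2 : ℝ) := not_le.mp hα.2
      have hxp : 0 < x ^ (1 / 2 : ℝ) := Real.rpow_pos_of_pos hx0 _
      have h2 : γ < |sin α| := by
        have : γ * x ^ (1 / 2 : ℝ) < |sin α| * x ^ (1 / 2 : ℝ) := by rw [hγx]; exact h1
        exact lt_of_mul_lt_mul_right this hxp.le
      have h3 : γ ^ 2 ≤ sin α ^ 2 := by
        rw [← sq_abs (sin α)]
        exact pow_le_pow_left₀ hγ0.le h2.le 2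
      have h4 : 0 < sin α ^ 2 := lt_of_lt_of_le (by positivity) h3
      have h5 : k0 β α ≤ β / sin α ^ 2 := by
        unfold k0
        exact div_le_div_of_nonneg_left hβ.le h4 (by nlinarith [sq_nonneg β])
      have h6 : 1 / sin α ^ 2 ≤ 2 * x ^ (1 / 2 : ℝ) * k0 γ α := by
        unfold k0
        have h7 : 2 * x ^ (1 / 2 : ℝ) * (γ / (sin α ^ 2 + γ ^ 2)) = 2 / (sin α ^ 2 + γ ^ 2) := by
          rw [mul_div_assoc']
          congr 1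
          linear_combination 2 * hγx
        rw [h7, div_le_div_iff₀ h4 (by positivity)]
        linarith
      have h8 : k0 β α * g α ≤ (β / sin α ^ 2) * G :=
        mul_le_mul h5 (hG α).2 (hG α).1 (by positivity)
      refine h8.trans ?_
      have h9 : (β / sin α ^ 2) * G = G * β * (1 / sin α ^ 2) := by ring
      rw [h9]
      calc G * β * (1 / sin α ^ 2) ≤ G * β * (2 * x ^ (1 / 2 : ℝ) * k0 γ α) :=
            mul_le_mul_of_nonneg_left h6 (by positivity)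
        _ = _ := by ring
  have hc : ∫ α in T \ U, k0 γ α ≤ 20 := by
    calc ∫ α in T \ U, k0 γ α ≤ ∫ α in Icc (-π) π, k0 γ α := by
          refine setIntegral_mono_set ((k0_cont' hγ0).continuousOn.integrableOn_compact isCompact_Icc)
            (ae_of_all _ fun α => k0_nonneg' hγ0 α) (LE.le.eventuallyLE (sdiff_subset.trans inter_subset_left))
      _ = ∫ α in (-π)..π, k0 γ α := by
          rw [intervalIntegral.integral_of_le (by linarith [pi_pos]), integral_Icc_eq_integral_Ioc]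
      _ ≤ 20 := k0_int hγ0
  rw [integral_const_mul] at hb
  have hd : G * β * (2 * x ^ (1 / 2 : ℝ)) * (∫ α in T \ U, k0 γ α) ≤ G * β * (2 * x ^ (1 / 2 : ℝ)) * 20 :=
    mul_le_mul_of_nonneg_left hc (by positivity)
  have he : G * β * (2 * x ^ (1 / 2 : ℝ)) * 20 = G * (β * (40 * x ^ (1 / 2 : ℝ))) := by ring
  linarith

theorem wt_cont {L J : ℕ} {H₀ : ℝ → ℝ} (h0 : ContDiff ℝ 2 H₀) (b : ℝ → ℤ × ℤ → ℂ)
    (hb : ∀ k, Continuous (fun α => b α k)) (θ q : ℝ) (t : Fin J) (i : Ix L) (t' : Fin J) (k : ℤ × ℤ) :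
    Continuous (fun α => wt H₀ (b α) θ α q t i t' k) := by
  unfold wt
  by_cases h : t' = t
  · subst h
    simp only [Function.update_self]
    refine (hb k).mul (Complex.continuous_ofReal.comp ?_)
    exact (lam_cont (bas_smooth h0 i) θ k).div_const _
  · simp only [Function.update_of_ne h]
    exact hb k

theorem cont_par {W : Type} [TopologicalSpace W] [FirstCountableTopology W] [LocallyCompactSpace W] {g : (ℝ × ℝ) × W → ℝ} (hg : Continuous g) (a b : ℝ) :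
    Continuous (fun p : ℝ × W => ∫ R in Icc a b, g ((R, p.1), p.2)) := by
  have h1 : Continuous (fun z : (ℝ × W) × ℝ => g ((z.2, z.1.1), z.1.2)) := hg.comp (by fun_prop)
  exact continuous_parametric_integral_of_continuous (f := fun (p : ℝ × W) (R : ℝ) => g ((R, p.1), p.2)) h1 isCompact_Icc

theorem Ys_cont {L J : ℕ} {H₀ : ℝ → ℝ} (h0 : ContDiff ℝ 2 H₀) (A : Fin J → Finset (ℤ × ℤ)) (b : ℝ → ℤ × ℤ → ℂ)
    (hb : ∀ k, Continuous (fun α => b α k)) (θ q R₀ : ℝ) :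
    Continuous (fun p : ℝ × ((Fin L → ℝ) × (Fin L → ℝ)) => Ys H₀ A (b p.1) θ q R₀ p.1 p.2) := by
  have h2 : Continuous (fun z : (ℝ × ℝ) × ((Fin L → ℝ) × (Fin L → ℝ)) => Yq (Hw H₀ z.2) A (fun _ => b z.1.2) z.1.1 z.1.2) :=
    Yq_cont h0 A (fun _ => b) (fun _ => hb)
  have h3 : ∀ (t : Fin J) (i : Ix L), Continuous (fun z : (ℝ × ℝ) × ((Fin L → ℝ) × (Fin L → ℝ)) =>
      Yq (Hw H₀ z.2) A (wt H₀ (b z.1.2) θ z.1.2 q t i) z.1.1 z.1.2) := fun t i =>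
    Yq_cont h0 A (fun t' α => wt H₀ (b α) θ α q t i t') (wt_cont h0 b hb θ q t i)
  have h4 : Continuous (fun z : (ℝ × ℝ) × ((Fin L → ℝ) × (Fin L → ℝ)) => Yq (Hw H₀ z.2) A (fun _ => b z.1.2) z.1.1 z.1.2 +
      ∑ t : Fin J, ∑ i : Ix L, Yq (Hw H₀ z.2) A (wt H₀ (b z.1.2) θ z.1.2 q t i) z.1.1 z.1.2) :=
    h2.add (continuous_finsetSum _ fun t _ => continuous_finsetSum _ fun i _ => h3 t i)
  exact cont_par h4 (R₀ / 2) (4 * R₀)

theorem wt_le {L J : ℕ} (H₀ : ℝ → ℝ) (b : ℤ × ℤ → ℂ) (hb : ∀ k, ‖b k‖ ≤ 1) (A : Fin J → Finset (ℤ × ℤ)) {θ α q : ℝ} (hq0 : 0 < q)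
    (hq : ∀ i : Ix L, ∀ t, ∀ k ∈ A t, |lam (bas H₀ i) θ α k| ≤ q) (t : Fin J) (i : Ix L) (t' : Fin J) :
    ∀ k ∈ A t', ‖wt H₀ b θ α q t i t' k‖ ≤ 1 := by
  intro k hk
  unfold wt
  by_cases h : t' = t
  · subst h
    simp only [Function.update_self]
    rw [norm_mul, Complex.norm_real, Real.norm_eq_abs, abs_div, abs_of_pos hq0]
    calc ‖b k‖ * (|lam (bas H₀ i) θ α k| / q) ≤ 1 * 1 := by
          refine mul_le_mul (hb k) ?_ (by positivity) (by norm_num)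
          rw [div_le_one hq0]
          exact hq i t' k hk
      _ = 1 := by norm_num
  · simp only [Function.update_of_ne h]
    exact hb k

theorem Ys_le {L J : ℕ} (H₀ : ℝ → ℝ) (A : Fin J → Finset (ℤ × ℤ)) (b : ℤ × ℤ → ℂ) (hb : ∀ k, ‖b k‖ ≤ 1) {θ q R₀ α : ℝ} (hq0 : 0 < q)
    (hR₀ : 0 < R₀) (hq : ∀ i : Ix L, ∀ t, ∀ k ∈ A t, |lam (bas H₀ i) θ α k| ≤ q) (w : (Fin L → ℝ) × (Fin L → ℝ)) :
    0 ≤ Ys H₀ A b θ q R₀ α w ∧ Ys H₀ A b θ q R₀ α w ≤ 4 * R₀ * (1 + J * (2 * L + 1)) * (∏ t, ((A t).card : ℝ)) ^ 2 := by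
  unfold Ys
  set P : ℝ := (∏ t, ((A t).card : ℝ)) ^ 2 with hP
  have hP0 : 0 ≤ P := by positivity
  have h1 : ∀ R : ℝ, 0 ≤ (Yq (Hw H₀ w) A (fun _ => b) R α + ∑ t : Fin J, ∑ i : Ix L, Yq (Hw H₀ w) A (wt H₀ b θ α q t i) R α) ∧
      (Yq (Hw H₀ w) A (fun _ => b) R α + ∑ t : Fin J, ∑ i : Ix L, Yq (Hw H₀ w) A (wt H₀ b θ α q t i) R α) ≤ (1 + J * (2 * L + 1)) * P := by
    intro R
    have h2 := Yq_le (Hw H₀ w) A (fun _ => b) (fun _ k _ => hb k) R α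
    have h3 : ∀ t i, 0 ≤ Yq (Hw H₀ w) A (wt H₀ b θ α q t i) R α ∧ Yq (Hw H₀ w) A (wt H₀ b θ α q t i) R α ≤ P := fun t i =>
      Yq_le (Hw H₀ w) A (wt H₀ b θ α q t i) (wt_le H₀ b hb A hq0 hq t i) R α
    constructor
    · exact add_nonneg h2.1 (Finset.sum_nonneg fun t _ => Finset.sum_nonneg fun i _ => (h3 t i).1)
    · have h4 : ∑ t : Fin J, ∑ i : Ix L, Yq (Hw H₀ w) A (wt H₀ b θ α q t i) R α ≤ ∑ _t : Fin J, ∑ _i : Ix L, P :=
        Finset.sum_le_sum fun t _ => Finset.sum_le_sum fun i _ => (h3 t i).2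
      have h5 : ∑ _t : Fin J, ∑ _i : Ix L, P = J * (2 * L + 1) * P := by
        rw [Finset.sum_const, Finset.sum_const, Finset.card_univ, Finset.card_univ, nsmul_eq_mul, nsmul_eq_mul, Fintype.card_fin,
          Fintype.card_option, Fintype.card_sum, Fintype.card_fin]
        push_cast
        ring
      rw [h5] at h4
      calc _ ≤ P + J * (2 * L + 1) * P := add_le_add h2.2 h4
        _ = _ := by ring
  have hvol : volume.real (Icc (R₀ / 2) (4 * R₀)) = 4 * R₀ - R₀ / 2 := Real.volume_real_Icc_of_le (by linarith)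
  constructor
  · exact setIntegral_nonneg measurableSet_Icc fun R _ => (h1 R).1
  · have h2 : ‖∫ R in Icc (R₀ / 2) (4 * R₀), (Yq (Hw H₀ w) A (fun _ => b) R α +
        ∑ t : Fin J, ∑ i : Ix L, Yq (Hw H₀ w) A (wt H₀ b θ α q t i) R α)‖ ≤ (1 + J * (2 * L + 1)) * P * volume.real (Icc (R₀ / 2) (4 * R₀)) := by
      refine norm_setIntegral_le_of_norm_le_const measure_Icc_lt_top (fun R _ => ?_)
      rw [Real.norm_eq_abs, abs_of_nonneg (h1 R).1]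
      exact (h1 R).2
    refine (le_abs_self _).trans (h2.trans ?_)
    rw [hvol]
    have h3 : 0 ≤ (1 + (J : ℝ) * (2 * L + 1)) * P := by positivity
    nlinarith

/-- the bound for the number of frequencies -/
noncomputable def FQ (x M : ℝ) (s J : ℕ) : ℝ := (8 * J * x + 1) * (5 * J * x / M ^ s + 1)

/-- the direction of the arc number `j` of generation `s` -/
noncomputable def th (M s j : ℕ) : ℝ := 2 * π * (j / ((8 * M ^ s : ℕ) : ℝ))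

theorem lam_rg (L : ℕ) {H₀ : ℝ → ℝ} (h0 : ContDiff ℝ 2 H₀) (hp : Function.Periodic H₀ (2 * π)) :
    ∃ C : ℝ, 0 < C ∧ ∀ (i : Ix L) (n M s j : ℕ), 1 ≤ M → (M : ℝ) ^ s ≤ ((2 : ℝ) ^ n) ^ (1 / 2 : ℝ) → ∀ α ∈ rg (2 ^ n),
      ∀ k ∈ arcSet (blk n) (8 * M ^ s) j, |lam (bas H₀ i) (th M s j) α k| ≤ C * (2 ^ n / ((M : ℝ) ^ s) ^ 2) := by
  obtain ⟨C, hC, h⟩ := lam_blk L h0 hp
  refine ⟨2 * C, by positivity, ?_⟩
  intro i n M s j hM hMs α hα k hk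
  have h1 := h i n M s j hM α k hk
  unfold th
  refine h1.trans ?_
  have hM0 : (0 : ℝ) < (M : ℝ) ^ s := by
    have : (0 : ℝ) < M := by exact_mod_cast hM
    positivity
  have h2 : |sin α| ≤ 1 / (M : ℝ) ^ s := by
    rw [le_div_iff₀ hM0]
    exact (mul_le_mul_of_nonneg_left hMs (abs_nonneg _)).trans hα.2
  have h3 : (2 : ℝ) ^ n / (M : ℝ) ^ s * (1 / (M : ℝ) ^ s + |sin α|) ≤ 2 ^ n / (M : ℝ) ^ s * (1 / (M : ℝ) ^ s + 1 / (M : ℝ) ^ s) := by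
    gcongr
  calc C * (2 ^ n / (M : ℝ) ^ s * (1 / (M : ℝ) ^ s + |sin α|)) ≤ C * (2 ^ n / (M : ℝ) ^ s * (1 / (M : ℝ) ^ s + 1 / (M : ℝ) ^ s)) := by
        gcongr
    _ = 2 * C * (2 ^ n / ((M : ℝ) ^ s) ^ 2) := by
        field_simp
        ring

/-- one tuple of children arcs -/
theorem tuple_le {L J : ℕ} {H₀ : ℝ → ℝ} {n M s j : ℕ} (hM : 1 ≤ M) (b : ℤ × ℤ → ℂ) (a : Fin J → Fin M) (w : (Fin L → ℝ) × (Fin L → ℝ))
    {R α Q : ℝ} (c : ℝ × ℝ)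
    (hQ : Yq (Hw H₀ w) (fun t => arcSet (blk n) (8 * M ^ (s + 1)) (M * j + a t)) (fun _ => b) R α ≤ Q) :
    ∏ t, ‖Sc (Hw H₀ w) (arcSet (blk n) (8 * M ^ (s + 1)) (M * j + a t)) b R α c‖ ^ 2 ≤ FQ (2 ^ n) M s J * Q := by
  have h1 := cs_prod (Hw H₀ w) (fun t => arcSet (blk n) (8 * M ^ (s + 1)) (M * j + a t)) (fun _ => b) R α c
  have h2 := fq_card (n := n) (s := s) (j := j) hM (fun t => arcSet (blk n) (8 * M ^ (s + 1)) (M * j + a t))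
    (fun t => arc_child (blk n) hM (a t).2)
  have h3 : 0 ≤ Yq (Hw H₀ w) (fun t => arcSet (blk n) (8 * M ^ (s + 1)) (M * j + a t)) (fun _ => b) R α := by
    unfold Yq
    positivity
  refine h1.trans (mul_le_mul ?_ hQ h3 ?_)
  · unfold FQ
    exact h2
  · unfold FQ
    positivity

private lemma gapT_card (J M : ℕ) : ((gapT J M).card : ℝ) ≤ (M : ℝ) ^ J := by
  have h : (gapT J M).card ≤ M ^ J := by
    refine (Finset.card_filter_le _ _).trans ?_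
    simp
  exact_mod_cast h

theorem cont_fix {W : Type} [TopologicalSpace W] {g : ℝ → W → ℝ} (hg : Continuous (fun p : ℝ × W => g p.1 p.2)) (α : ℝ) :
    Continuous (g α) := hg.comp (Continuous.prodMk_right α)

/-- the sum over the arcs of generation `s` and the tuples of children -/
noncomputable def Gs {L : ℕ} (H₀ : ℝ → ℝ) (n M s J : ℕ) (Cs C0 R₀ : ℝ) (b : ℝ → ℤ × ℤ → ℂ) (α : ℝ)
    (w : (Fin L → ℝ) × (Fin L → ℝ)) : ℝ :=
  ∑ j ∈ Finset.range (8 * M ^ s), ∑ a ∈ gapT J M, FQ (2 ^ n) M s J * (Cs * (2 ^ n / ((M : ℝ) ^ s) ^ 2) *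
    Ys H₀ (fun t => arcSet (blk n) (8 * M ^ (s + 1)) (M * j + a t)) (b α) (th M s j) (C0 * (2 ^ n / ((M : ℝ) ^ s) ^ 2)) R₀ α w)

theorem Gs_cont {L : ℕ} {H₀ : ℝ → ℝ} (h0 : ContDiff ℝ 2 H₀) (n M s J : ℕ) (Cs C0 R₀ : ℝ) (b : ℝ → ℤ × ℤ → ℂ)
    (hb : ∀ k, Continuous (fun α => b α k)) :
    Continuous (fun p : ℝ × ((Fin L → ℝ) × (Fin L → ℝ)) => Gs H₀ n M s J Cs C0 R₀ b p.1 p.2) := by
  unfold Gs
  refine continuous_finsetSum _ fun j _ => continuous_finsetSum _ fun a _ => continuous_const.mul (continuous_const.mul ?_)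
  exact Ys_cont h0 _ b hb _ _ _

/-- sums over arcs and tuples -/
private lemma sum_le (M s J : ℕ) (f : ℕ → (Fin J → Fin M) → ℝ) {B : ℝ} (hB : 0 ≤ B)
    (h : ∀ j, ∀ a ∈ gapT J M, f j a ≤ B) : ∑ j ∈ Finset.range (8 * M ^ s), ∑ a ∈ gapT J M, f j a ≤ 8 * (M : ℝ) ^ s * M ^ J * B := by
  have h1 : ∀ j ∈ Finset.range (8 * M ^ s), ∑ a ∈ gapT J M, f j a ≤ (M : ℝ) ^ J * B := by
    intro j _
    calc ∑ a ∈ gapT J M, f j a ≤ ∑ _a ∈ gapT J M, B := Finset.sum_le_sum (h j)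
      _ = (gapT J M).card * B := by rw [Finset.sum_const, nsmul_eq_mul]
      _ ≤ _ := mul_le_mul_of_nonneg_right (gapT_card J M) hB
  calc _ ≤ ∑ _j ∈ Finset.range (8 * M ^ s), (M : ℝ) ^ J * B := Finset.sum_le_sum h1
    _ = _ := by rw [Finset.sum_const, nsmul_eq_mul, Finset.card_range]; push_cast; ring

private lemma FQ_nonneg {x M : ℝ} (hx : 0 ≤ x) (hM : 0 ≤ M) (s J : ℕ) : 0 ≤ FQ x M s J := by
  unfold FQ
  positivity

/-- the trivial bound -/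
theorem Gs_le {L : ℕ} {H₀ : ℝ → ℝ} {n M s J : ℕ} (hM : 1 ≤ M) {Cs C0 R₀ : ℝ} (hCs : 0 ≤ Cs) (hC0 : 0 < C0) (hR₀ : 0 < R₀) (b : ℝ → ℤ × ℤ → ℂ)
    (hb : ∀ α k, ‖b α k‖ ≤ 1) {α : ℝ}
    (hlam : ∀ (i : Ix L) (j : ℕ), ∀ k ∈ arcSet (blk n) (8 * M ^ s) j, |lam (bas H₀ i) (th M s j) α k| ≤ C0 * (2 ^ n / ((M : ℝ) ^ s) ^ 2))
    (w : (Fin L → ℝ) × (Fin L → ℝ)) :
    0 ≤ Gs H₀ n M s J Cs C0 R₀ b α w ∧ Gs H₀ n M s J Cs C0 R₀ b α w ≤
      8 * (M : ℝ) ^ s * M ^ J * (FQ (2 ^ n) M s J * (Cs * (2 ^ n / ((M : ℝ) ^ s) ^ 2) *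
        (4 * R₀ * (1 + J * (2 * L + 1)) * ((blk n).card ^ J : ℝ) ^ 2))) := by
  have hMp : (0 : ℝ) < M := by exact_mod_cast hM
  have hq0 : 0 < C0 * (2 ^ n / ((M : ℝ) ^ s) ^ 2) := by positivity
  have hF0 : 0 ≤ FQ (2 ^ n) M s J := FQ_nonneg (by positivity) hMp.le _ _
  have h1 : ∀ (j : ℕ) (a : Fin J → Fin M), 0 ≤ Ys H₀ (fun t => arcSet (blk n) (8 * M ^ (s + 1)) (M * j + a t)) (b α) (th M s j)
      (C0 * (2 ^ n / ((M : ℝ) ^ s) ^ 2)) R₀ α w ∧ Ys H₀ (fun t => arcSet (blk n) (8 * M ^ (s + 1)) (M * j + a t)) (b α) (th M s j)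
      (C0 * (2 ^ n / ((M : ℝ) ^ s) ^ 2)) R₀ α w ≤ 4 * R₀ * (1 + J * (2 * L + 1)) * ((blk n).card ^ J : ℝ) ^ 2 := by
    intro j a
    have h2 := Ys_le H₀ (fun t => arcSet (blk n) (8 * M ^ (s + 1)) (M * j + a t)) (b α) (hb α) (θ := th M s j) hq0 hR₀
      (fun i t k hk => hlam i j k (arc_child (blk n) hM (a t).2 hk)) w
    refine ⟨h2.1, h2.2.trans ?_⟩
    have h3 : ∏ t : Fin J, ((arcSet (blk n) (8 * M ^ (s + 1)) (M * j + a t)).card : ℝ) ≤ ((blk n).card : ℝ) ^ J := by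
      calc ∏ t : Fin J, ((arcSet (blk n) (8 * M ^ (s + 1)) (M * j + a t)).card : ℝ) ≤ ∏ _t : Fin J, ((blk n).card : ℝ) := by
            refine Finset.prod_le_prod (fun t _ => by positivity) (fun t _ => ?_)
            exact_mod_cast Finset.card_filter_le _ _
        _ = _ := by simp
    have h4 : (0 : ℝ) ≤ ∏ t : Fin J, ((arcSet (blk n) (8 * M ^ (s + 1)) (M * j + a t)).card : ℝ) :=
      Finset.prod_nonneg fun t _ => by positivity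
    gcongr
  unfold Gs
  constructor
  · exact Finset.sum_nonneg fun j _ => Finset.sum_nonneg fun a _ => mul_nonneg hF0 (mul_nonneg (by positivity) (h1 j a).1)
  · refine sum_le M s J _ (by positivity) (fun j a _ => ?_)
    have h2 := (h1 j a).2
    gcongr

/-- the mean -/
theorem Gs_mean {L : ℕ} {H₀ : ℝ → ℝ} (h0 : ContDiff ℝ 2 H₀) {n M s J Jm : ℕ} (hJ : 2 ≤ J) (hJm : J ≤ Jm) (hJL : 2 * J ≤ L) (hM : 1 ≤ M)
    {Cs C0 R₀ η : ℝ} (hCs : 0 ≤ Cs) (hC0 : 0 < C0) (hR₀ : 1 ≤ R₀) (b : ℝ → ℤ × ℤ → ℂ)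
    (hb : ∀ α k, ‖b α k‖ ≤ 1) (hbc : ∀ k, Continuous (fun α => b α k)) {α : ℝ}
    (hlam : ∀ (i : Ix L) (j : ℕ), ∀ k ∈ arcSet (blk n) (8 * M ^ s) j, |lam (bas H₀ i) (th M s j) α k| ≤ C0 * (2 ^ n / ((M : ℝ) ^ s) ^ 2))
    (hα : 1 / 2 ≤ |cos α|) (hη : 0 < η)
    (h1 : J * 4 ^ J * (2 * η) ≤ 2 ^ n * (1 / (2 * (M : ℝ) ^ (s + 1))) ^ (2 * J - 1))
    (h2 : 50 * J * 4 ^ J * η < (1 / (2 * (M : ℝ) ^ (s + 1))) ^ (2 * J - 3)) :
    ∫ w : (Fin L → ℝ) × (Fin L → ℝ), Gs H₀ n M s J Cs C0 R₀ b α w ∂(gm L) ≤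
      8 * (M : ℝ) ^ s * M ^ J * (FQ (2 ^ n) M s J * (Cs * (4 * (1 + Jm * (2 * L + 1))) * (2 ^ n / ((M : ℝ) ^ s) ^ 2) *
        (R₀ * (Dc (2 ^ n) M (s + 1) ^ J *
        ((2 * rr J M η (s + 1) + 1) * (2 * rr J M η (s + 1) * (1 / (2 * (M : ℝ) ^ (s + 1))) + 1)) +
        Dc (2 ^ n) M (s + 1) ^ (2 * J) * exp (-(π / 16) * R₀ ^ 2 * η ^ 2))))) := by
  have hMp : (0 : ℝ) < M := by exact_mod_cast hM
  have hq0 : 0 < C0 * (2 ^ n / ((M : ℝ) ^ s) ^ 2) := by positivity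
  have hF0 : 0 ≤ FQ (2 ^ n) M s J := FQ_nonneg (by positivity) hMp.le _ _
  have hD0 : 0 ≤ Dc (2 ^ n) M (s + 1) := by
    unfold Dc
    positivity
  have hr0 : 0 ≤ rr J M η (s + 1) := by
    unfold rr
    positivity
  have hR0 : 0 < R₀ := by linarith
  have hint : ∀ (j : ℕ) (a : Fin J → Fin M), Integrable (fun w : (Fin L → ℝ) × (Fin L → ℝ) =>
      Ys H₀ (fun t => arcSet (blk n) (8 * M ^ (s + 1)) (M * j + a t)) (b α) (th M s j) (C0 * (2 ^ n / ((M : ℝ) ^ s) ^ 2)) R₀ α w) (gm L) := by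
    intro j a
    have hc := cont_fix (g := fun (α : ℝ) (w : (Fin L → ℝ) × (Fin L → ℝ)) => Ys H₀ (fun t => arcSet (blk n) (8 * M ^ (s + 1)) (M * j + a t)) (b α)
      (th M s j) (C0 * (2 ^ n / ((M : ℝ) ^ s) ^ 2)) R₀ α w) (Ys_cont h0 (fun t => arcSet (blk n) (8 * M ^ (s + 1)) (M * j + a t)) b hbc (th M s j)
      (C0 * (2 ^ n / ((M : ℝ) ^ s) ^ 2)) R₀) α
    refine Integrable.of_bound hc.aestronglyMeasurable (4 * R₀ * (1 + J * (2 * L + 1)) *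
      (∏ t : Fin J, ((arcSet (blk n) (8 * M ^ (s + 1)) (M * j + a t)).card : ℝ)) ^ 2) (ae_of_all _ fun w => ?_)
    have h3 := Ys_le H₀ (fun t => arcSet (blk n) (8 * M ^ (s + 1)) (M * j + a t)) (b α) (hb α) (θ := th M s j) hq0 hR0
      (fun i t k hk => hlam i j k (arc_child (blk n) hM (a t).2 hk)) w
    rw [Real.norm_eq_abs, abs_of_nonneg h3.1]
    exact h3.2
  set Z : ℝ := Dc (2 ^ n) M (s + 1) ^ J *
        ((2 * rr J M η (s + 1) + 1) * (2 * rr J M η (s + 1) * (1 / (2 * (M : ℝ) ^ (s + 1))) + 1)) +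
        Dc (2 ^ n) M (s + 1) ^ (2 * J) * exp (-(π / 16) * R₀ ^ 2 * η ^ 2) with hZ
  have hZ0 : 0 ≤ Z := by positivity
  have hm : ∀ (j : ℕ), ∀ a ∈ gapT J M, ∫ w : (Fin L → ℝ) × (Fin L → ℝ), Ys H₀ (fun t => arcSet (blk n) (8 * M ^ (s + 1)) (M * j + a t))
      (b α) (th M s j) (C0 * (2 ^ n / ((M : ℝ) ^ s) ^ 2)) R₀ α w ∂(gm L) ≤ 4 * R₀ * (1 + Jm * (2 * L + 1)) * Z := by
    intro j a ha
    have h3 := Ys_mean (n := n) (j := j) hJ hJL hM h0 (b α) (hb α) ha (θ := th M s j) (q := C0 * (2 ^ n / ((M : ℝ) ^ s) ^ 2)) (R₀ := R₀) (α := α)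
      (fun i k hk => hlam i j k hk) hq0 hR₀ hα hη h1 h2
    refine h3.trans ?_
    have h4 : (J : ℝ) ≤ Jm := by exact_mod_cast hJm
    gcongr
  unfold Gs
  rw [integral_finsetSum _ fun j _ => integrable_finsetSum _ fun a _ => ((hint j a).const_mul _).const_mul _]
  have h5 : ∀ j ∈ Finset.range (8 * M ^ s), ∫ w : (Fin L → ℝ) × (Fin L → ℝ), (∑ a ∈ gapT J M, FQ (2 ^ n) M s J *
      (Cs * (2 ^ n / ((M : ℝ) ^ s) ^ 2) * Ys H₀ (fun t => arcSet (blk n) (8 * M ^ (s + 1)) (M * j + a t)) (b α) (th M s j)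
        (C0 * (2 ^ n / ((M : ℝ) ^ s) ^ 2)) R₀ α w)) ∂(gm L) = ∑ a ∈ gapT J M, FQ (2 ^ n) M s J * (Cs * (2 ^ n / ((M : ℝ) ^ s) ^ 2) *
        ∫ w : (Fin L → ℝ) × (Fin L → ℝ), Ys H₀ (fun t => arcSet (blk n) (8 * M ^ (s + 1)) (M * j + a t)) (b α) (th M s j)
          (C0 * (2 ^ n / ((M : ℝ) ^ s) ^ 2)) R₀ α w ∂(gm L)) := by
    intro j _
    rw [integral_finsetSum _ fun a _ => ((hint j a).const_mul _).const_mul _]
    refine Finset.sum_congr rfl fun a _ => ?_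
    rw [integral_const_mul, integral_const_mul]
  rw [Finset.sum_congr rfl h5]
  refine (sum_le M s J _ (B := FQ (2 ^ n) M s J * (Cs * (2 ^ n / ((M : ℝ) ^ s) ^ 2) * (4 * R₀ * (1 + Jm * (2 * L + 1)) * Z)))
    (by positivity) (fun j a ha => ?_)).trans (le_of_eq ?_)
  · have h6 := hm j a ha
    gcongr
  · ring


/-- the pointwise bound from the multiscale decomposition -/
theorem point_le {L : ℕ} {H₀ : ℝ → ℝ} {Bd : ℝ} {Jm : ℕ} {Cs C0 : ℝ}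
    (hsob : ∀ (J : ℕ), J ≤ Jm → ∀ (A : Fin J → Finset (ℤ × ℤ)) (b : ℤ × ℤ → ℂ) (θ α κ R₀ : ℝ), 1 ≤ κ → 1 ≤ R₀ →
      ∀ w : (Fin L → ℝ) × (Fin L → ℝ), ‖w‖ ≤ Bd → ∀ R ∈ Icc (R₀ / 2) (4 * R₀),
        Yq (Hw H₀ w) A (fun _ => b) R α ≤ Cs * κ * Ys H₀ A b θ (C0 * κ) R₀ α w)
    {n M m : ℕ} (hM : 1 ≤ M) (hMm : (M : ℝ) ^ m ≤ ((2 : ℝ) ^ n) ^ (1 / 2 : ℝ)) (J : ℕ → ℕ) (hJ : ∀ s, 1 ≤ J s ∧ J s ≤ Jm)
    {R₀ : ℝ} (hR₀ : 1 ≤ R₀) (b : ℤ × ℤ → ℂ) (hb : ∀ k, ‖b k‖ ≤ 1) (w : (Fin L → ℝ) × (Fin L → ℝ)) (hw : ‖w‖ ≤ Bd)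
    {R : ℝ} (hR : R ∈ Icc (R₀ / 2) (4 * R₀)) (α : ℝ) (c : ℝ × ℝ) :
    ‖Sc (Hw H₀ w) (blk n) b R α c‖ ≤ 8 * (4 * (Jm : ℝ)) ^ m * Dc (2 ^ n) M m + 8 * (4 * (Jm : ℝ)) ^ m * (2 * M) *
      ∑ s ∈ Finset.range m, (Gs H₀ n M s (J s) Cs C0 R₀ (fun _ => b) α w) ^ (1 / (2 * (J s : ℝ))) := by
  have hM0 : (0 : ℝ) < M := by exact_mod_cast hM
  have hM1 : (1 : ℝ) ≤ M := by exact_mod_cast hM
  have hJm1 : (1 : ℝ) ≤ 4 * (Jm : ℝ) := by
    have : 1 ≤ Jm := (hJ 0).1.trans (hJ 0).2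
    have : (1 : ℝ) ≤ Jm := by exact_mod_cast this
    linarith
  have hx0 : (0 : ℝ) < 2 ^ n := by positivity
  have h1 := multiscale (blk n) (fun k => b k * ee (-(R * (nk k * gph (Hw H₀ w) k α))) * ee (dt k c)) hM J hJ
      (D := Dc (2 ^ n) M m) (m := m) (by
        intro j
        calc ‖∑ k ∈ arcSet (blk n) (8 * M ^ m) j, b k * ee (-(R * (nk k * gph (Hw H₀ w) k α))) * ee (dt k c)‖ ≤
            ((arcSet (blk n) (8 * M ^ m) j).card : ℝ) := Sc_norm_le _ _ b hb R α c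
          _ ≤ 2 * (4 * 2 ^ n + 1) * (6 * 2 ^ n * (2 * π / ((8 * M ^ m : ℕ) : ℝ)) + 1) :=
              arc_card n (by
                have : 1 ≤ M ^ m := Nat.one_le_pow _ _ hM
                omega) j
          _ = Dc (2 ^ n) M m := by
              unfold Dc
              push_cast
              ring)
  rw [Finset.mul_sum]
  refine le_trans h1 (add_le_add le_rfl (Finset.sum_le_sum ?_))
  intro s hs
  have hs' : s < m := Finset.mem_range.mp hs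
  have hMs : ((M : ℝ) ^ s) ^ 2 ≤ 2 ^ n := by
    have h2 : (M : ℝ) ^ s ≤ (M : ℝ) ^ m := pow_le_pow_right₀ hM1 hs'.le
    have h3 : ((M : ℝ) ^ s) ^ 2 ≤ (((2 : ℝ) ^ n) ^ (1 / 2 : ℝ)) ^ 2 := pow_le_pow_left₀ (by positivity) (h2.trans hMm) 2
    refine h3.trans (le_of_eq ?_)
    rw [← Real.rpow_natCast, ← Real.rpow_mul hx0.le]
    norm_num
  have hκ : 1 ≤ (2 : ℝ) ^ n / ((M : ℝ) ^ s) ^ 2 := by
    rw [le_div_iff₀ (by positivity), one_mul]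
    exact hMs
  have h2 : ∑ j ∈ Finset.range (8 * M ^ s), ∑ a ∈ gapT (J s) M,
        ∏ t, ‖∑ k ∈ arcSet (blk n) (8 * M ^ (s + 1)) (M * j + a t),
          b k * ee (-(R * (nk k * gph (Hw H₀ w) k α))) * ee (dt k c)‖ ^ 2 ≤ Gs H₀ n M s (J s) Cs C0 R₀ (fun _ => b) α w := by
    unfold Gs
    refine Finset.sum_le_sum fun j _ => Finset.sum_le_sum fun a _ => ?_
    exact tuple_le hM b a w c (hsob (J s) (hJ s).2 _ b (th M s j) α _ R₀ hκ hR₀ w hw R hR)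
  have h0 : 0 ≤ ∑ j ∈ Finset.range (8 * M ^ s), ∑ a ∈ gapT (J s) M,
        ∏ t, ‖∑ k ∈ arcSet (blk n) (8 * M ^ (s + 1)) (M * j + a t),
          b k * ee (-(R * (nk k * gph (Hw H₀ w) k α))) * ee (dt k c)‖ ^ 2 :=
    Finset.sum_nonneg fun j _ => Finset.sum_nonneg fun a _ => Finset.prod_nonneg fun t _ => by positivity
  have h3 : (0 : ℝ) ≤ 1 / (2 * (J s : ℝ)) := by positivity
  have h4 : (4 * (Jm : ℝ)) ^ s ≤ (4 * (Jm : ℝ)) ^ m := pow_le_pow_right₀ hJm1 hs'.le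
  have h5 : (0 : ℝ) ≤ 2 * M := by positivity
  refine mul_le_mul (mul_le_mul_of_nonneg_right (mul_le_mul_of_nonneg_left h4 (by norm_num)) h5)
    (Real.rpow_le_rpow h0 h2 h3) (Real.rpow_nonneg h0 _) (by positivity)


open Classical in
theorem key2' {ε e1 : ℝ} (hε : 0 < ε) (hε1 : ε ≤ 1) (he1 : 0 < e1) (he11 : e1 ≤ 1) {L : ℕ} (hL : 2 / ε + 8 ≤ L)
    {H₀ : ℝ → ℝ} (h0 : ContDiff ℝ 2 H₀) (hp : Function.Periodic H₀ (2 * π)) (Bd : ℝ) :
    ∃ (e2 C R₁ : ℝ), 0 < e2 ∧ e2 ≤ 1 / 4 ∧ 0 < C ∧ 1 ≤ R₁ ∧ ∀ R₀ : ℝ, R₁ ≤ R₀ → ∀ n : ℕ,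
      R₀ ^ ε ≤ (2 : ℝ) ^ n → (2 : ℝ) ^ n ≤ R₀ ^ (1 / 2 + e2) → ∀ β : ℝ, 0 < β →
      ∀ b : ℝ → ℤ × ℤ → ℂ, (∀ k, Continuous (fun α => b α k)) → (∀ α k, ‖b α k‖ ≤ 1) →
        ∃ E : Set ((Fin L → ℝ) × (Fin L → ℝ)), (gm L).real E ≤ C * ((2 : ℝ) ^ n) ^ (-e1) ∧
          ∀ w ∉ E, ‖w‖ ≤ Bd → ∀ R ∈ Icc (R₀ / 2) (4 * R₀), ∀ c : ℝ × ℝ,
            ∫ α in rg (2 ^ n), k0 β α * ‖Sc (Hw H₀ w) (blk n) (b α) R α c‖ ≤ 3 / 4 * ((2 : ℝ) ^ n) ^ (3 / 2 + e1) := by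
  obtain ⟨m, e2, e3, hm, he2, he2', he3, hexp0⟩ := exponents2 hε hε1 he1 he11
  obtain ⟨Jm, hJm⟩ : ∃ Jm : ℕ, Jm = ⌊1 / ε⌋₊ + 4 := ⟨_, rfl⟩
  obtain ⟨C0, hC0, hlam⟩ := lam_rg L h0 hp
  obtain ⟨Cs, hCs, hsob⟩ := Yq_sob L h0 Bd Jm hC0
  obtain ⟨C, R₁, hC, hR₁, hexp⟩ := hexp0 (Cs * (4 * (1 + Jm * (2 * L + 1)))) (by positivity)
  have hm0 : (0 : ℝ) < m := by exact_mod_cast (by omega : 0 < m)
  refine ⟨e2, m * (4 ^ (2 * Jm) * C), R₁, he2, he2', by positivity, hR₁, ?_⟩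
  intro R₀ hR₀ n hn1 hn2 β hβ b hbc hb1
  have hR₀1 : 1 ≤ R₀ := hR₁.trans hR₀
  have hR₀0 : 0 < R₀ := by linarith
  obtain ⟨x, hx⟩ : ∃ x : ℝ, x = 2 ^ n := ⟨_, rfl⟩
  have hx1 : 1 ≤ x := by rw [hx]; exact one_le_pow₀ (by norm_num)
  have hx0 : 0 < x := by linarith
  obtain ⟨M, hM⟩ : ∃ M : ℕ, M = ⌊x ^ (1 / (2 * (m : ℝ)))⌋₊ := ⟨_, rfl⟩
  obtain ⟨hM1, hMm, hD, hs⟩ := hexp R₀ hR₀ x (by rw [hx]; exact hn1) (by rw [hx]; exact hn2) M hM Jm hJm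
  have hJL : 2 * Jm ≤ L := by
    have h1 : ((⌊1 / ε⌋₊ : ℕ) : ℝ) ≤ 1 / ε := Nat.floor_le (by positivity)
    have h2 : ((2 * Jm : ℕ) : ℝ) ≤ L := by
      rw [hJm]
      push_cast
      have h3 : 2 * (1 / ε) = 2 / ε := by ring
      linarith
    exact_mod_cast h2
  choose! J hJ using hs
  obtain ⟨J', hJ'⟩ : ∃ J' : ℕ → ℕ, J' = fun s => if s < m then J s else 2 := ⟨_, rfl⟩
  have hJ's : ∀ s, s < m → J' s = J s := fun s hs => by rw [hJ']; exact if_pos hs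
  have hJ'b : ∀ s, 1 ≤ J' s ∧ J' s ≤ Jm := by
    intro s
    by_cases h : s < m
    · rw [hJ's s h]
      exact ⟨by have := (hJ s h).1; omega, (hJ s h).2.1⟩
    · rw [hJ']
      simp only [h, if_false]
      constructor
      · norm_num
      · omega
  have hM0 : (0 : ℝ) < M := by exact_mod_cast (by omega : 0 < M)
  have hM1' : (1 : ℝ) ≤ M := by exact_mod_cast hM1
  have hMs : ∀ s < m, (M : ℝ) ^ s ≤ ((2 : ℝ) ^ n) ^ (1 / 2 : ℝ) := by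
    intro s hs
    rw [← hx]
    exact (pow_le_pow_right₀ hM1' hs.le).trans hMm
  have hlam' : ∀ s < m, ∀ α ∈ rg (2 ^ n), ∀ (i : Ix L) (j : ℕ), ∀ k ∈ arcSet (blk n) (8 * M ^ s) j,
      |lam (bas H₀ i) (th M s j) α k| ≤ C0 * (2 ^ n / ((M : ℝ) ^ s) ^ 2) := fun s hs α hα i j k hk =>
    hlam i n M s j hM1 (hMs s hs) α hα k hk
  -- the functions
  obtain ⟨X, hX⟩ : ∃ X : ℕ → ℝ → ((Fin L → ℝ) × (Fin L → ℝ)) → ℝ,
      X = fun s α w => if s < m then (if α ∈ rg (2 ^ n) then Gs H₀ n M s (J' s) Cs C0 R₀ b α w else 0) else 0 := ⟨_, rfl⟩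
  obtain ⟨c0, hc0⟩ : ∃ c0 : ℝ, c0 = 8 * (4 * (Jm : ℝ)) ^ m * Dc x M m := ⟨_, rfl⟩
  obtain ⟨c1, hc1⟩ : ∃ c1 : ℝ, c1 = 8 * (4 * (Jm : ℝ)) ^ m * (2 * M) := ⟨_, rfl⟩
  obtain ⟨F, hF⟩ : ∃ F : ℝ → ((Fin L → ℝ) × (Fin L → ℝ)) → ℝ,
      F = fun α w => 0 + c1 * ∑ s ∈ Finset.range m, X s α w ^ (1 / (2 * (J' s : ℝ))) := ⟨_, rfl⟩
  have hDc0 : 0 ≤ Dc x M m := by
    unfold Dc
    positivity
  have hJmp : (0 : ℝ) < Jm := by
    rw [hJm]
    push_cast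
    positivity
  have hc00 : 0 ≤ c0 := by rw [hc0]; positivity
  have hc1p : 0 < c1 := by rw [hc1]; positivity
  -- bounds
  obtain ⟨BX, hBX⟩ : ∃ BX : ℕ → ℝ, BX = fun s => 8 * (M : ℝ) ^ s * M ^ (J' s) * (FQ (2 ^ n) M s (J' s) * (Cs * (2 ^ n / ((M : ℝ) ^ s) ^ 2) *
        (4 * R₀ * (1 + J' s * (2 * L + 1)) * ((blk n).card ^ (J' s) : ℝ) ^ 2))) := ⟨_, rfl⟩
  have hBX0 : ∀ s, 0 ≤ BX s := by
    intro s
    rw [hBX]
    have : 0 ≤ FQ (2 ^ n) M s (J' s) := by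
      unfold FQ
      positivity
    positivity
  have hXb : ∀ s α w, 0 ≤ X s α w ∧ X s α w ≤ BX s := by
    intro s α w
    rw [hX]
    by_cases h : s < m
    · by_cases h' : α ∈ rg (2 ^ n)
      · simp only [h, h', if_true]
        have h3 := Gs_le (L := L) (H₀ := H₀) (n := n) (s := s) (J := J' s) hM1 hCs.le hC0 hR₀0 b hb1 (hlam' s h α h') w
        rw [hBX]
        exact h3
      · simp only [h, h', if_true, if_false]
        exact ⟨le_rfl, hBX0 s⟩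
    · simp only [h, if_false]
      exact ⟨le_rfl, hBX0 s⟩
  obtain ⟨BB, hBB⟩ : ∃ BB : ℝ, BB = (∑ s ∈ Finset.range m, BX s) + (0 + c1 * ∑ s ∈ Finset.range m, BX s ^ (1 / (2 * (J' s : ℝ)))) := ⟨_, rfl⟩
  have hsum1 : 0 ≤ ∑ s ∈ Finset.range m, BX s := Finset.sum_nonneg fun s _ => hBX0 s
  have hsum2 : 0 ≤ ∑ s ∈ Finset.range m, BX s ^ (1 / (2 * (J' s : ℝ))) := Finset.sum_nonneg fun s _ => Real.rpow_nonneg (hBX0 s) _
  have hX0 : ∀ s α w, 0 ≤ X s α w ∧ X s α w ≤ BB := by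
    intro s α w
    refine ⟨(hXb s α w).1, ?_⟩
    rw [hBB]
    by_cases h : s < m
    · have h1 := (hXb s α w).2
      have h2 := Finset.single_le_sum (fun s _ => hBX0 s) (Finset.mem_range.mpr h)
      have h3 : 0 ≤ c1 * ∑ s ∈ Finset.range m, BX s ^ (1 / (2 * (J' s : ℝ))) := mul_nonneg hc1p.le hsum2
      linarith
    · have h1 : X s α w = 0 := by
        rw [hX]
        simp only [h, if_false]
      rw [h1]
      have h3 : 0 ≤ c1 * ∑ s ∈ Finset.range m, BX s ^ (1 / (2 * (J' s : ℝ))) := mul_nonneg hc1p.le hsum2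
      linarith
  have hF0 : ∀ α w, 0 ≤ F α w ∧ F α w ≤ BB := by
    intro α w
    rw [hF]
    constructor
    · exact add_nonneg le_rfl (mul_nonneg hc1p.le (Finset.sum_nonneg fun s _ => Real.rpow_nonneg (hXb s α w).1 _))
    · rw [hBB]
      have h1 : ∑ s ∈ Finset.range m, X s α w ^ (1 / (2 * (J' s : ℝ))) ≤ ∑ s ∈ Finset.range m, BX s ^ (1 / (2 * (J' s : ℝ))) :=
        Finset.sum_le_sum fun s _ => Real.rpow_le_rpow (hXb s α w).1 (hXb s α w).2 (by positivity)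
      have h2 := mul_le_mul_of_nonneg_left h1 hc1p.le
      simp only
      linarith
  -- measurability
  have hXm : ∀ s, Measurable (Function.uncurry (X s)) := by
    intro s
    rw [hX]
    by_cases h : s < m
    · simp only [h, if_true]
      have h1 : Measurable (fun p : ℝ × ((Fin L → ℝ) × (Fin L → ℝ)) => Gs H₀ n M s (J' s) Cs C0 R₀ b p.1 p.2) :=
        (Gs_cont h0 n M s (J' s) Cs C0 R₀ b hbc).measurable
      have h2 : MeasurableSet {p : ℝ × ((Fin L → ℝ) × (Fin L → ℝ)) | p.1 ∈ rg (2 ^ n)} := measurable_fst (rg_meas (2 ^ n))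
      exact Measurable.ite h2 h1 measurable_const
    · simp only [h, if_false]
      exact measurable_const
  have hFm : Measurable (Function.uncurry F) := by
    rw [hF]
    have h1 : Measurable (fun p : ℝ × ((Fin L → ℝ) × (Fin L → ℝ)) => 0 + c1 * ∑ s ∈ Finset.range m,
        (Function.uncurry (X s) p) ^ (1 / (2 * (J' s : ℝ)))) :=
      measurable_const.add (measurable_const.mul (Finset.measurable_sum _ fun s _ => (hXm s).pow_const _))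
    exact h1
  obtain ⟨e, he⟩ : ∃ e : ℕ → ℝ, e = fun s => 8 * (M : ℝ) ^ s * M ^ (J' s) * (FQ x M s (J' s) * (Cs * (4 * (1 + Jm * (2 * L + 1))) *
        (x / ((M : ℝ) ^ s) ^ 2) * (R₀ * (Dc x M (s + 1) ^ (J' s) *
        ((2 * rr (J' s) M (R₀ ^ (-1 + e3)) (s + 1) + 1) * (2 * rr (J' s) M (R₀ ^ (-1 + e3)) (s + 1) * (1 / (2 * (M : ℝ) ^ (s + 1))) + 1)) +
        Dc x M (s + 1) ^ (2 * (J' s)) * exp (-(π / 16) * R₀ ^ 2 * (R₀ ^ (-1 + e3)) ^ 2))))) := ⟨_, rfl⟩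
  have hη : 0 < R₀ ^ (-1 + e3) := Real.rpow_pos_of_pos hR₀0 _
  have he0 : ∀ s < m, 0 ≤ e s := by
    intro s _
    rw [he]
    have h1 : 0 ≤ Dc x M (s + 1) := by
      unfold Dc
      positivity
    have h2 : 0 ≤ FQ x M s (J' s) := by
      unfold FQ
      positivity
    have h3 : 0 ≤ rr (J' s) M (R₀ ^ (-1 + e3)) (s + 1) := by
      unfold rr
      positivity
    positivity
  have hmean : ∀ s < m, ∀ᵐ α ∂(nuA β (2 ^ n)), ∫ w, X s α w ∂(gm L) ≤ e s := by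
    intro s hs
    have hac : nuA β (2 ^ n) ≪ volume.restrict (rg (2 ^ n)) := withDensity_absolutelyContinuous _ _
    refine hac.ae_le ?_
    filter_upwards [ae_restrict_mem (rg_meas (2 ^ n))] with α hα
    obtain ⟨hJ2, hJJm, hh1, hh2, -⟩ := hJ s hs
    have h2 : ∫ w, X s α w ∂(gm L) = ∫ w, Gs H₀ n M s (J' s) Cs C0 R₀ b α w ∂(gm L) := by
      rw [hX]
      simp only [hs, hα, if_true]
    rw [h2, he]
    have h1 := Gs_mean (L := L) h0 (n := n) (s := s) (J := J' s) (Jm := Jm) (by rw [hJ's s hs]; omega) (hJ'b s).2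
      (by have := (hJ'b s).2; omega) hM1 hCs.le hC0 hR₀1 b hb1 hbc (hlam' s hs α hα) hα.1.2 hη
      (by rw [hJ's s hs, ← hx]; exact hh1) (by rw [hJ's s hs]; exact hh2)
    rw [← hx] at h1
    exact h1
  have hfin := (nuA_mass hβ (2 ^ n)).1
  have hmass := (nuA_mass hβ (2 ^ n)).2
  have hmain := markov_holder (gm L) (nuA β (2 ^ n)) (Cν := 20) (by norm_num) hmass hm F X hFm hXm hF0 hX0 J'
    (fun s => (hJ'b s).1) (c0 := 0) (c1 := c1) le_rfl hc1p (fun α w => by rw [hF]) e hmean he0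
    (lam := x ^ (3 / 2 + e1) / 4) (by rw [mul_zero, zero_mul]; exact (div_pos (Real.rpow_pos_of_pos hx0 _) (by norm_num)).le)
    (div_pos (Real.rpow_pos_of_pos hx0 _) (by norm_num))
  refine ⟨{w | x ^ (3 / 2 + e1) / 4 < ∫ α, F α w ∂(nuA β (2 ^ n))}, ?_, ?_⟩
  · rw [← hx]
    rw [← hx] at hmain
    refine hmain.trans ?_
    have hterm : ∀ s ∈ Finset.range m, (2 * c1 * m * 20 / (x ^ (3 / 2 + e1) / 4)) ^ (2 * J' s) * (20 * e s) ≤
        4 ^ (2 * Jm) * C * x ^ (-e1) := by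
      intro s hs
      have hs' : s < m := Finset.mem_range.mp hs
      obtain ⟨-, -, -, -, hh⟩ := hJ s hs'
      have h1 : (2 * c1 * m * 20 / (x ^ (3 / 2 + e1) / 4)) ^ (2 * J' s) = 4 ^ (2 * J' s) * (2 * c1 * m * 20 / x ^ (3 / 2 + e1)) ^ (2 * J' s) := by
        rw [← mul_pow]
        congr 1
        field_simp
      have h2 : (2 * c1 * m * 20 / x ^ (3 / 2 + e1)) ^ (2 * J' s) * (20 * e s) ≤ C * x ^ (-e1) := by
        rw [hc1, he]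
        simp only
        rw [hJ's s hs']
        unfold FQ
        exact hh
      have h3 : (4 : ℝ) ^ (2 * J' s) ≤ 4 ^ (2 * Jm) := pow_le_pow_right₀ (by norm_num) (by have := (hJ'b s).2; omega)
      have h4 := mul_le_mul h3 h2 (mul_nonneg (by positivity) (mul_nonneg (by norm_num) (he0 s hs'))) (by positivity)
      rw [h1]
      calc _ = 4 ^ (2 * J' s) * ((2 * c1 * m * 20 / x ^ (3 / 2 + e1)) ^ (2 * J' s) * (20 * e s)) := by ring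
        _ ≤ _ := h4
        _ = _ := by ring
    calc _ ≤ ∑ _s ∈ Finset.range m, 4 ^ (2 * Jm) * C * x ^ (-e1) := Finset.sum_le_sum hterm
      _ = m * (4 ^ (2 * Jm) * C) * x ^ (-e1) := by
          rw [Finset.sum_const, Finset.card_range, nsmul_eq_mul]
          ring
  · intro w hw hwB R hR c
    rw [mem_ofPred_eq, not_lt] at hw
    rw [← hx]
    have hhalf : c0 * 20 ≤ x ^ (3 / 2 + e1) / 2 := by
      rw [hc0]
      linarith
    have hcint : ∫ _α, c0 ∂(nuA β (2 ^ n)) ≤ c0 * 20 := by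
      rw [integral_const, smul_eq_mul, mul_comm]
      exact mul_le_mul_of_nonneg_left hmass hc00
    rw [nuA_int hβ, ← hx] at hw hcint
    have hpt : ∀ α ∈ rg x, ‖Sc (Hw H₀ w) (blk n) (b α) R α c‖ ≤ c0 + F α w := by
      intro α hα
      have h1 := point_le (L := L) (H₀ := H₀) (Bd := Bd) (Jm := Jm) hsob (n := n) (M := M) (m := m) hM1 (by rw [← hx]; exact hMm)
        J' hJ'b hR₀1 (b α) (hb1 α) w hwB hR α c
      refine h1.trans (le_of_eq ?_)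
      rw [hF, hc0, hc1, ← hx]
      simp only [zero_add]
      congr 2
      refine Finset.sum_congr rfl fun s hs => ?_
      have hs' : s < m := Finset.mem_range.mp hs
      rw [hx] at hα
      rw [hX]
      simp only [hs', hα, if_true]
      rfl
    have hkc := k0_cont' hβ
    have hFi : IntegrableOn (fun α => k0 β α * F α w) (rg x) := by
      have h1 : IntegrableOn (fun α => k0 β α * BB) (rg x) :=
        ((hkc.mul continuous_const).continuousOn.integrableOn_compact isCompact_Icc).mono_set (rg_sub x)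
      refine h1.mono' ?_ (ae_of_all _ fun α => ?_)
      · exact (hkc.measurable.mul (hFm.comp measurable_prodMk_right)).aestronglyMeasurable
      · rw [Real.norm_eq_abs, abs_of_nonneg (mul_nonneg (k0_nonneg' hβ α) (hF0 α w).1)]
        exact mul_le_mul_of_nonneg_left (hF0 α w).2 (k0_nonneg' hβ α)
    have hSi : IntegrableOn (fun α => k0 β α * ‖Sc (Hw H₀ w) (blk n) (b α) R α c‖) (rg x) :=
      ((hkc.mul (Sc_cont h0 w (blk n) b hbc R c).norm).continuousOn.integrableOn_compact isCompact_Icc).mono_set (rg_sub x)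
    have hCi : IntegrableOn (fun α => k0 β α * c0) (rg x) :=
      ((hkc.mul continuous_const).continuousOn.integrableOn_compact isCompact_Icc).mono_set (rg_sub x)
    have hgoal : ∫ α in rg x, k0 β α * ‖Sc (Hw H₀ w) (blk n) (b α) R α c‖ ≤ ∫ α in rg x, (k0 β α * c0 + k0 β α * F α w) := by
      refine setIntegral_mono_on hSi (hCi.add hFi) (rg_meas x) (fun α hα => ?_)
      rw [← mul_add]
      refine mul_le_mul_of_nonneg_left ?_ (k0_nonneg' hβ α)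
      exact hpt α hα
    rw [integral_add hCi hFi] at hgoal
    linarith

theorem key2 {ε e1 : ℝ} (hε : 0 < ε) (hε1 : ε ≤ 1) (he1 : 0 < e1) (he11 : e1 ≤ 1) {L : ℕ} (hL : 2 / ε + 8 ≤ L)
    {H₀ : ℝ → ℝ} (h0 : ContDiff ℝ 2 H₀) (hp : Function.Periodic H₀ (2 * π)) (Bd : ℝ) :
    ∃ (e2 C R₁ : ℝ), 0 < e2 ∧ e2 ≤ 1 / 4 ∧ 0 < C ∧ 1 ≤ R₁ ∧ ∀ R₀ : ℝ, R₁ ≤ R₀ → ∀ n : ℕ,
      R₀ ^ ε ≤ (2 : ℝ) ^ n → (2 : ℝ) ^ n ≤ R₀ ^ (1 / 2 + e2) → ∀ β : ℝ, 0 < β → β ≤ 2 * (R₀ * 2 ^ n) ^ (-(1 / 2) : ℝ) →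
      ∀ b : ℝ → ℤ × ℤ → ℂ, (∀ k, Continuous (fun α => b α k)) → (∀ α k, ‖b α k‖ ≤ 1) →
        ∃ E : Set ((Fin L → ℝ) × (Fin L → ℝ)), (gm L).real E ≤ C * ((2 : ℝ) ^ n) ^ (-e1) ∧
          ∀ w ∉ E, ‖w‖ ≤ Bd → ∀ R ∈ Icc (R₀ / 2) (4 * R₀), ∀ c : ℝ × ℝ,
            ∫ α in Icc (-π) π ∩ {α | 1 / 2 ≤ |cos α|}, k0 β α * ‖Sc (Hw H₀ w) (blk n) (b α) R α c‖ ≤
              ((2 : ℝ) ^ n) ^ (3 / 2 + e1) := by
  obtain ⟨e2, C, R₁, he2, he2', hC, hR₁, h⟩ := key2' hε hε1 he1 he11 hL h0 hp Bd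
  refine ⟨e2, C, max R₁ (8000 ^ (1 / (ε * e1))), he2, he2', hC, hR₁.trans (le_max_left _ _), ?_⟩
  intro R₀ hR₀ n hn1 hn2 β hβ hβ2 b hbc hb1
  have hR1 : R₁ ≤ R₀ := (le_max_left _ _).trans hR₀
  have hR2 : (8000 : ℝ) ^ (1 / (ε * e1)) ≤ R₀ := (le_max_right _ _).trans hR₀
  have hR₀1 : 1 ≤ R₀ := hR₁.trans hR1
  have hR₀0 : 0 < R₀ := by linarith
  obtain ⟨E, hE, hEw⟩ := h R₀ hR1 n hn1 hn2 β hβ b hbc hb1
  refine ⟨E, hE, fun w hw hwB R hR c => ?_⟩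
  have h1 := hEw w hw hwB R hR c
  obtain ⟨x, hx⟩ : ∃ x : ℝ, x = 2 ^ n := ⟨_, rfl⟩
  rw [← hx] at h1 hn1 hn2 hβ2 ⊢
  have hx1 : 1 ≤ x := by rw [hx]; exact one_le_pow₀ (by norm_num)
  have hx0 : 0 < x := by linarith
  have hxR : x ≤ R₀ := by
    refine hn2.trans ?_
    calc R₀ ^ (1 / 2 + e2) ≤ R₀ ^ (1 : ℝ) := Real.rpow_le_rpow_of_exponent_le hR₀1 (by linarith)
      _ = R₀ := Real.rpow_one _
  have hg : Continuous (fun α => ‖Sc (Hw H₀ w) (blk n) (b α) R α c‖) := (Sc_cont h0 w (blk n) b hbc R c).norm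
  have h2 := out_le hβ hx1 (fun α => ‖Sc (Hw H₀ w) (blk n) (b α) R α c‖) hg (G := 25 * 4 ^ n)
    (fun α => ⟨norm_nonneg _, (Sc_norm_le _ _ _ (hb1 α) R α c).trans (blk_card n)⟩)
  have hG : (25 : ℝ) * 4 ^ n = 25 * x ^ 2 := by
    rw [hx, ← pow_mul, mul_comm n 2, pow_mul]
    norm_num
  rw [hG] at h2
  -- the trivial part
  have hb2 : β * x ^ (1 / 2 : ℝ) ≤ 2 * R₀ ^ (-(1 / 2) : ℝ) := by
    calc β * x ^ (1 / 2 : ℝ) ≤ 2 * (R₀ * x) ^ (-(1 / 2) : ℝ) * x ^ (1 / 2 : ℝ) :=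
          mul_le_mul_of_nonneg_right hβ2 (Real.rpow_nonneg hx0.le _)
      _ = 2 * R₀ ^ (-(1 / 2) : ℝ) := by
          rw [Real.mul_rpow hR₀0.le hx0.le, mul_assoc, mul_assoc, ← Real.rpow_add hx0]
          norm_num
  have hb3 : x ^ 2 * R₀ ^ (-(1 / 2) : ℝ) ≤ x ^ (3 / 2 : ℝ) := by
    have h3 : R₀ ^ (-(1 / 2) : ℝ) ≤ x ^ (-(1 / 2) : ℝ) := Real.rpow_le_rpow_of_nonpos hx0 hxR (by norm_num)
    calc x ^ 2 * R₀ ^ (-(1 / 2) : ℝ) ≤ x ^ 2 * x ^ (-(1 / 2) : ℝ) := mul_le_mul_of_nonneg_left h3 (by positivity)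
      _ = x ^ (3 / 2 : ℝ) := by
          rw [← Real.rpow_natCast x 2, ← Real.rpow_add hx0]
          norm_num
  have hxe : 8000 ≤ x ^ e1 := by
    have h3 : (8000 : ℝ) ≤ (R₀ ^ ε) ^ e1 := by
      rw [← Real.rpow_mul hR₀0.le]
      have h4 : ((8000 : ℝ) ^ (1 / (ε * e1))) ^ (ε * e1) ≤ R₀ ^ (ε * e1) := Real.rpow_le_rpow (by positivity) hR2 (by positivity)
      rw [← Real.rpow_mul (by norm_num), one_div_mul_cancel (by positivity), Real.rpow_one] at h4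
      exact h4
    exact h3.trans (Real.rpow_le_rpow (by positivity) hn1 he1.le)
  have hsplit : x ^ (3 / 2 + e1) = x ^ (3 / 2 : ℝ) * x ^ e1 := Real.rpow_add hx0 _ _
  have hx32 : 0 < x ^ (3 / 2 : ℝ) := Real.rpow_pos_of_pos hx0 _
  have htriv : 25 * x ^ 2 * (β * (40 * x ^ (1 / 2 : ℝ))) ≤ 1 / 4 * x ^ (3 / 2 + e1) := by
    rw [hsplit]
    calc 25 * x ^ 2 * (β * (40 * x ^ (1 / 2 : ℝ))) = 1000 * x ^ 2 * (β * x ^ (1 / 2 : ℝ)) := by ring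
      _ ≤ 1000 * x ^ 2 * (2 * R₀ ^ (-(1 / 2) : ℝ)) := mul_le_mul_of_nonneg_left hb2 (by positivity)
      _ = 2000 * (x ^ 2 * R₀ ^ (-(1 / 2) : ℝ)) := by ring
      _ ≤ 2000 * x ^ (3 / 2 : ℝ) := by linarith
      _ ≤ 1 / 4 * (x ^ (3 / 2 : ℝ) * x ^ e1) := by nlinarith
  linarith


end Pool.Agent.Helper60.AD
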