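import Pool.Agent.Helper60.AD.Key
import Pool.Agent.Helper22.AD.Fin
import Pool.Agent.Helper22.AD.A12
import Pool.Agent.Helper85.AD.Types2
import Pool.Agent.Helper90.AD.SumBlocks

/-!
# AD: the finite theorem and the theorem for random series, all centres
-/

open MeasureTheory Real Set Filter Topology unitInterval

set_option autoImplicit false

namespace Pool.Agent.Helper60.AD

open Pool.Agent.Helper22.AE
open Pool.Agent.Helper22.AC (cntc)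

/-- for Lebesgue almost every `w ∈ ℝ^L × ℝ^L`, `L ≥ 2/ε + 8` -/
theorem main_fin2 {ε : ℝ} (hε : 0 < ε) (hε1 : ε ≤ 1) {L : ℕ} (hL : 2 / ε + 8 ≤ L) {H₀ : ℝ → ℝ}
    (h0 : ContDiff ℝ 2 H₀) (hp : Function.Periodic H₀ (2 * π)) :
    ∀ᵐ w : (Fin L → ℝ) × (Fin L → ℝ), (∀ θ, 0 < Hw H₀ w θ + deriv (deriv (Hw H₀ w)) θ) → ∃ C : ℝ, ∀ R : ℝ, 1 ≤ R →
      ∀ c : ℝ × ℝ, |cntc (Hw H₀ w) c R - area (Hw H₀ w) * R ^ 2| ≤ C * R ^ (1 / 2 + ε) :=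
  Pool.Agent.Helper22.AD.main_fin2_of (fun h1 h2 h3 h4 _ hL _ h5 h6 Bd => key2 h1 h2 h3 h4 hL h5 h6 Bd)
    (fun L _ h1 h2 Bd => Pool.Agent.Helper85.AD.types2 L h1 h2 Bd)
    (fun h1 h2 _ _ _ h3 h4 h5 h6 h7 h8 _ _ h9 b hb hbc w hw hty _ hkey =>
      Pool.Agent.Helper90.AD.sum_blocks h1 h2 h3 h4 h5 h6 h7 h8 h9 b hb hbc w hw hty hkey)
    hε hε1 hL h0 hp

/-- for almost every random series -/
theorem main_ser2 {H₀ : ℝ → ℝ} (h0 : ContDiff ℝ 2 H₀) (hp : Function.Periodic H₀ (2 * π)) {s : ℕ → ℝ}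
    (hs : Summable (fun l : ℕ => (l : ℝ) ^ 2 * |s l|)) :
    ∀ᵐ x ∂(Measure.infinitePi fun _ : ℕ => (volume : Measure (I × I))),
      (∀ θ, 0 < Hx H₀ s x θ + deriv (deriv (Hx H₀ s x)) θ) →
      ∀ ε : ℝ, 0 < ε → (∀ l : ℕ, (l : ℝ) < 2 / ε + 10 → s l ≠ 0) → ∃ C : ℝ, ∀ R : ℝ, 1 ≤ R → ∀ c : ℝ × ℝ,
        |cntc (Hx H₀ s x) c R - area (Hx H₀ s x) * R ^ 2| ≤ C * R ^ (1 / 2 + ε) :=
  Pool.Agent.Helper22.AD.main_ser2_of (fun h1 h2 _ hL _ h3 h4 => main_fin2 h1 h2 hL h3 h4) h0 hp hs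

end Pool.Agent.Helper60.AD
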