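import Pool.Agent.Helper60.AD.Worst

/-!
# AD: measurability of the error at the worst centre

`sup_c N_c(R)` and `inf_c N_c(R)` are monotone functions of `R`.
-/

open MeasureTheory Real Set Filter Topology

set_option autoImplicit false

namespace Pool.Agent.Helper60.AD

open Pool.Agent.Helper22.AE
open Pool.Agent.Helper22.AC (cntc)

theorem sup_mono {H : ℝ → ℝ} {v : ℝ × ℝ} (hv : ∀ t : ℝ, v.1 * cos t + v.2 * sin t ≤ H t) :
    Monotone (fun R : ℝ => ⨆ c : ℝ × ℝ, ((cntc H c R : ℝ) : EReal)) := by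
  intro R r hr
  refine iSup_le fun c => ?_
  refine le_trans ?_ (le_iSup (fun c : ℝ × ℝ => ((cntc H c r : ℝ) : EReal)) (c.1 + (R - r) * v.1, c.2 + (R - r) * v.2))
  exact EReal.coe_le_coe_iff.2 (cntc_mono hv hr c)

theorem inf_mono {H : ℝ → ℝ} {v : ℝ × ℝ} (hv : ∀ t : ℝ, v.1 * cos t + v.2 * sin t ≤ H t) :
    Monotone (fun R : ℝ => ⨅ c : ℝ × ℝ, ((cntc H c R : ℝ) : EReal)) := by
  intro R r hr
  refine le_iInf fun c => ?_
  refine (iInf_le (fun c : ℝ × ℝ => ((cntc H c R : ℝ) : EReal)) (c.1 + (r - R) * v.1, c.2 + (r - R) * v.2)).trans ?_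
  refine EReal.coe_le_coe_iff.2 ((cntc_mono hv hr (c.1 + (r - R) * v.1, c.2 + (r - R) * v.2)).trans (le_of_eq ?_))
  congr 1
  ext
  · show c.1 + (r - R) * v.1 + (R - r) * v.1 = c.1
    ring
  · show c.2 + (r - R) * v.2 + (R - r) * v.2 = c.2
    ring

/-- the error at the worst centre is a Borel function of the radius -/
theorem worst_measurable {H : ℝ → ℝ} {v : ℝ × ℝ} (hv : ∀ t : ℝ, v.1 * cos t + v.2 * sin t ≤ H t) {p : ℝ} (hp : 0 < p) :
    Measurable (fun R : ℝ => ⨆ c : ℝ × ℝ, ENNReal.ofReal (|cntc H c R - area H * R ^ 2| ^ p)) := by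
  refine measurable_of_Ioi fun y => ?_
  rcases eq_or_ne y ⊤ with hy | hy
  · subst hy
    have : (fun R : ℝ => ⨆ c : ℝ × ℝ, ENNReal.ofReal (|cntc H c R - area H * R ^ 2| ^ p)) ⁻¹' Ioi ⊤ = ∅ := by
      ext R
      simp
    rw [this]
    exact MeasurableSet.empty
  · set z : ℝ := y.toReal ^ (1 / p) with hz
    have hz0 : 0 ≤ z := Real.rpow_nonneg ENNReal.toReal_nonneg _
    have hzp : z ^ p = y.toReal := by
      rw [hz, ← Real.rpow_mul ENNReal.toReal_nonneg, one_div_mul_cancel hp.ne', Real.rpow_one]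
    have hset : (fun R : ℝ => ⨆ c : ℝ × ℝ, ENNReal.ofReal (|cntc H c R - area H * R ^ 2| ^ p)) ⁻¹' Ioi y =
        {R : ℝ | ((area H * R ^ 2 + z : ℝ) : EReal) < ⨆ c : ℝ × ℝ, ((cntc H c R : ℝ) : EReal)} ∪
        {R : ℝ | ⨅ c : ℝ × ℝ, ((cntc H c R : ℝ) : EReal) < ((area H * R ^ 2 - z : ℝ) : EReal)} := by
      ext R
      simp only [mem_preimage, mem_Ioi, mem_union, mem_setOf_eq, lt_iSup_iff, iInf_lt_iff, EReal.coe_lt_coe_iff]
      rw [← exists_or]
      refine exists_congr fun c => ?_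
      have h1 : y < ENNReal.ofReal (|cntc H c R - area H * R ^ 2| ^ p) ↔ z < |cntc H c R - area H * R ^ 2| := by
        rw [ENNReal.lt_ofReal_iff_toReal_lt hy, ← hzp]
        exact Real.rpow_lt_rpow_iff hz0 (abs_nonneg _) hp
      rw [h1, lt_abs]
      constructor
      · rintro (h | h)
        · left; linarith
        · right; linarith
      · rintro (h | h)
        · left; linarith
        · right; linarith
    rw [hset]
    refine MeasurableSet.union ?_ ?_
    · exact measurableSet_lt (measurable_coe_real_ereal.comp (by fun_prop)) (sup_mono hv).measurable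
    · exact measurableSet_lt (inf_mono hv).measurable (measurable_coe_real_ereal.comp (by fun_prop))

/-- for an oval -/
theorem worst_measurable' {H : ℝ → ℝ} (h2 : ContDiff ℝ 2 H) (hper : Function.Periodic H (2 * π)) (hr : ∀ θ, 0 < H θ + deriv (deriv H) θ) {p : ℝ}
    (hp : 0 < p) : Measurable (fun R : ℝ => ⨆ c : ℝ × ℝ, ENNReal.ofReal (|cntc H c R - area H * R ^ 2| ^ p)) := by
  obtain ⟨v, hv⟩ := exists_pt h2 hper hr
  exact worst_measurable hv hp

end Pool.Agent.Helper60.AD
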