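import Pool.Agent.Helper92.MM.Defs
import Pool.Agent.Helper11.AD.Small

/-!
# AD: a bound for the moments of the error at the worst centre implies the pointwise bound

`g` is any majorant of the `p`-th power of the error for all centres; `∫_X^{2X} g ≤ C X^(1+p/2)`. Then the error is at most `C' R^(1/2 + 3/(2p))` for all
`R ≥ 1` and all centres: `c + R D` increases with `R` up to a translation.
-/

open MeasureTheory Real Set Filter Topology

set_option autoImplicit false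

namespace Pool.Agent.Helper60.AD

open Pool.Agent.Helper22.AE
open Pool.Agent.Helper22.AC (cntc)

theorem pts_finite (H : ℝ → ℝ) (c : ℝ × ℝ) (R : ℝ) :
    {k : ℤ × ℤ | ∀ θ : ℝ, ((k.1 : ℝ) - c.1) * cos θ + ((k.2 : ℝ) - c.2) * sin θ ≤ R * H θ}.Finite := by
  refine ((Finset.Icc ⌊c.1 - R * H π⌋ ⌈c.1 + R * H 0⌉ ×ˢ Finset.Icc ⌊c.2 - R * H (-(π / 2))⌋ ⌈c.2 + R * H (π / 2)⌉).finite_toSet).subset ?_
  intro k hk
  have a0 := hk 0
  have a1 := hk (π / 2)
  have a2 := hk π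
  have a3 := hk (-(π / 2))
  simp only [Real.cos_zero, Real.sin_zero, Real.cos_pi_div_two, Real.sin_pi_div_two, Real.cos_pi, Real.sin_pi,
    Real.cos_neg, Real.sin_neg, mul_one, mul_zero, add_zero, zero_add, mul_neg] at a0 a1 a2 a3
  simp only [Finset.coe_product, Finset.coe_Icc, mem_prod, mem_Icc]
  refine ⟨⟨?_, ?_⟩, ⟨?_, ?_⟩⟩
  · have : (⌊c.1 - R * H π⌋ : ℝ) ≤ k.1 := (Int.floor_le _).trans (by linarith)
    exact_mod_cast this
  · have : (k.1 : ℝ) ≤ ⌈c.1 + R * H 0⌉ := le_trans (by linarith) (Int.le_ceil _)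
    exact_mod_cast this
  · have : (⌊c.2 - R * H (-(π / 2))⌋ : ℝ) ≤ k.2 := (Int.floor_le _).trans (by linarith)
    exact_mod_cast this
  · have : (k.2 : ℝ) ≤ ⌈c.2 + R * H (π / 2)⌉ := le_trans (by linarith) (Int.le_ceil _)
    exact_mod_cast this

/-- monotonicity up to a translation -/
theorem cntc_mono {H : ℝ → ℝ} {v : ℝ × ℝ} (hv : ∀ t : ℝ, v.1 * cos t + v.2 * sin t ≤ H t) {R r : ℝ} (hr : R ≤ r) (c : ℝ × ℝ) :
    cntc H c R ≤ cntc H (c.1 + (R - r) * v.1, c.2 + (R - r) * v.2) r := by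
  unfold cntc
  have hf : Finite {k : ℤ × ℤ // ∀ θ : ℝ, ((k.1 : ℝ) - (c.1 + (R - r) * v.1)) * cos θ + ((k.2 : ℝ) - (c.2 + (R - r) * v.2)) * sin θ ≤ r * H θ} :=
    (pts_finite H (c.1 + (R - r) * v.1, c.2 + (R - r) * v.2) r).to_subtype
  have h := Nat.card_le_card_of_injective
    (fun k : {k : ℤ × ℤ // ∀ θ : ℝ, ((k.1 : ℝ) - c.1) * cos θ + ((k.2 : ℝ) - c.2) * sin θ ≤ R * H θ} =>
      (⟨k.1, fun θ => by
        have h1 := k.2 θ
        have h2 := mul_le_mul_of_nonneg_left (hv θ) (sub_nonneg.2 hr)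
        linarith⟩ : {k : ℤ × ℤ // ∀ θ : ℝ, ((k.1 : ℝ) - (c.1 + (R - r) * v.1)) * cos θ + ((k.2 : ℝ) - (c.2 + (R - r) * v.2)) * sin θ ≤ r * H θ}))
    (by
      intro a b hab
      have := congrArg Subtype.val hab
      exact Subtype.ext this)
  exact_mod_cast h

private lemma rpow_split {R p : ℝ} (hR : 0 < R) (hp : 0 < p) : (R ^ (3 / 2 + p / 2)) ^ (1 / p) = R ^ (1 / 2 + 3 / (2 * p)) := by
  rw [← Real.rpow_mul hR.le]
  congr 1
  field_simp
  ring

/-- if `g ≥ E / 2` on an interval of length `R^(-1/2)` then `E` is small -/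
private lemma from_moment {g : ℝ → ENNReal} {p C a R E : ℝ} (hp : 1 ≤ p) (hC : 0 ≤ C) (hR : 1 ≤ R) (hE : 0 ≤ E)
    (hg : ∀ r ∈ Icc a (a + R ^ (-(1 / 2) : ℝ)), ENNReal.ofReal ((E / 2) ^ p) ≤ g r)
    (hint : ∫⁻ r in Icc a (a + R ^ (-(1 / 2) : ℝ)), g r ≤ ENNReal.ofReal (C * R ^ (1 + p / 2))) :
    E ≤ 2 * (C + 1) * R ^ (1 / 2 + 3 / (2 * p)) := by
  have hR0 : 0 < R := by linarith
  have hp0 : 0 < p := by linarith
  set h : ℝ := R ^ (-(1 / 2) : ℝ) with hh
  have hh0 : 0 < h := Real.rpow_pos_of_pos hR0 _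
  have h1 : ENNReal.ofReal (h * (E / 2) ^ p) ≤ ENNReal.ofReal (C * R ^ (1 + p / 2)) := by
    refine le_trans ?_ hint
    have h2 : ∫⁻ _r in Icc a (a + h), ENNReal.ofReal ((E / 2) ^ p) = ENNReal.ofReal (h * (E / 2) ^ p) := by
      rw [lintegral_const, Measure.restrict_apply_univ, Real.volume_Icc, mul_comm, ← ENNReal.ofReal_mul (by linarith)]
      congr 1
      ring
    rw [← h2]
    refine setLIntegral_mono' measurableSet_Icc ?_
    exact fun r hr => hg r hr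
  have h3 : h * (E / 2) ^ p ≤ C * R ^ (1 + p / 2) := (ENNReal.ofReal_le_ofReal_iff (by positivity)).1 h1
  have h4 : (E / 2) ^ p ≤ C * R ^ (3 / 2 + p / 2) := by
    have h5 : h * R ^ (1 / 2 : ℝ) = 1 := by
      rw [hh, ← Real.rpow_add hR0]
      norm_num
    have h6 : (E / 2) ^ p = R ^ (1 / 2 : ℝ) * (h * (E / 2) ^ p) := by
      rw [← mul_assoc, mul_comm (R ^ (1 / 2 : ℝ)) h, h5, one_mul]
    rw [h6]
    calc R ^ (1 / 2 : ℝ) * (h * (E / 2) ^ p) ≤ R ^ (1 / 2 : ℝ) * (C * R ^ (1 + p / 2)) :=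
          mul_le_mul_of_nonneg_left h3 (by positivity)
      _ = C * (R ^ (1 / 2 : ℝ) * R ^ (1 + p / 2)) := by ring
      _ = C * R ^ (3 / 2 + p / 2) := by
          rw [← Real.rpow_add hR0]
          ring_nf
  have h7 : E / 2 ≤ (C * R ^ (3 / 2 + p / 2)) ^ (1 / p) := by
    have h8 := Real.rpow_le_rpow (by positivity) h4 (by positivity : (0 : ℝ) ≤ 1 / p)
    rwa [← Real.rpow_mul (by positivity), mul_one_div_cancel hp0.ne', Real.rpow_one] at h8
  have h9 : (C * R ^ (3 / 2 + p / 2)) ^ (1 / p) ≤ (C + 1) * R ^ (1 / 2 + 3 / (2 * p)) := by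
    rw [Real.mul_rpow hC (by positivity), rpow_split hR0 hp0]
    refine mul_le_mul_of_nonneg_right ?_ (by positivity)
    calc C ^ (1 / p) ≤ (C + 1) ^ (1 / p) := Real.rpow_le_rpow hC (by linarith) (by positivity)
      _ ≤ (C + 1) ^ (1 : ℝ) := Real.rpow_le_rpow_of_exponent_le (by linarith) (by rw [div_le_one hp0]; exact hp)
      _ = C + 1 := Real.rpow_one _
  linarith

/-- moments of a majorant imply the pointwise bound -/
theorem bound_of_moment {H : ℝ → ℝ} {v : ℝ × ℝ} (hv : ∀ t : ℝ, v.1 * cos t + v.2 * sin t ≤ H t) {g : ℝ → ENNReal} {p C : ℝ} (hp : 1 ≤ p)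
    (hg : ∀ R : ℝ, 1 ≤ R → ∀ c : ℝ × ℝ, ENNReal.ofReal (|cntc H c R - area H * R ^ 2| ^ p) ≤ g R)
    (hint : ∀ X : ℝ, 1 ≤ X → ∫⁻ R in Icc X (2 * X), g R ≤ ENNReal.ofReal (C * X ^ (1 + p / 2))) :
    ∃ C' : ℝ, ∀ R : ℝ, 1 ≤ R → ∀ c : ℝ × ℝ, |cntc H c R - area H * R ^ 2| ≤ C' * R ^ (1 / 2 + 3 / (2 * p)) := by
  have hp0 : 0 < p := by linarith
  have hA : 0 ≤ area H := ENNReal.toReal_nonneg
  set D : ℝ := max C 0 with hD
  have hD0 : 0 ≤ D := le_max_right _ _
  have hint' : ∀ X : ℝ, 1 ≤ X → ∫⁻ R in Icc X (2 * X), g R ≤ ENNReal.ofReal (D * X ^ (1 + p / 2)) := by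
    intro X hX
    refine (hint X hX).trans (ENNReal.ofReal_le_ofReal ?_)
    exact mul_le_mul_of_nonneg_right (le_max_left _ _) (by positivity)
  refine ⟨2 * (D + 1) + 6 * area H + 4 * area H, fun R hR c => ?_⟩
  have hR0 : 0 < R := by linarith
  set h : ℝ := R ^ (-(1 / 2) : ℝ) with hh
  have hh0 : 0 < h := Real.rpow_pos_of_pos hR0 _
  have hh1 : h ≤ 1 := Real.rpow_le_one_of_one_le_of_nonpos hR (by norm_num)
  have hhR : h * R = R ^ (1 / 2 : ℝ) := by
    rw [hh, ← Real.rpow_add_one hR0.ne']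
    norm_num
  set P : ℝ := R ^ (1 / 2 + 3 / (2 * p)) with hP
  have hP1 : R ^ (1 / 2 : ℝ) ≤ P := Real.rpow_le_rpow_of_exponent_le hR (by
    have : 0 ≤ 3 / (2 * p) := by positivity
    linarith)
  have hs0 : 0 < R ^ (1 / 2 : ℝ) := Real.rpow_pos_of_pos hR0 _
  have hPone : 1 ≤ P := Real.one_le_rpow hR (by positivity)
  -- the step of the area
  have hstep : ∀ r s : ℝ, 0 ≤ r → r ≤ R → r ≤ s → s ≤ r + h → area H * s ^ 2 - area H * r ^ 2 ≤ 3 * area H * R ^ (1 / 2 : ℝ) := by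
    intro r s h0 hrR h1 h2
    have h4 : s ^ 2 - r ^ 2 ≤ 3 * R ^ (1 / 2 : ℝ) := by
      have h5 : s ^ 2 - r ^ 2 = (s - r) * (s + r) := by ring
      have h6 : (s - r) * (s + r) ≤ h * (3 * R) :=
        mul_le_mul (by linarith) (by linarith) (by linarith) hh0.le
      rw [h5]
      linarith
    nlinarith
  -- above
  have hup : cntc H c R - area H * R ^ 2 ≤ (2 * (D + 1) + 6 * area H) * P := by
    by_cases hE : cntc H c R - area H * R ^ 2 ≤ 6 * area H * R ^ (1 / 2 : ℝ)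
    · refine hE.trans ?_
      have : 6 * area H * R ^ (1 / 2 : ℝ) ≤ 6 * area H * P := mul_le_mul_of_nonneg_left hP1 (by positivity)
      nlinarith
    · rw [not_le] at hE
      set E : ℝ := cntc H c R - area H * R ^ 2 with hEd
      have hE0 : 0 ≤ E := le_trans (by positivity) hE.le
      have hgr : ∀ r ∈ Icc R (R + R ^ (-(1 / 2) : ℝ)), ENNReal.ofReal ((E / 2) ^ p) ≤ g r := by
        intro r hr
        have h1 := cntc_mono hv hr.1 c
        refine le_trans (ENNReal.ofReal_le_ofReal (Real.rpow_le_rpow (by linarith) ?_ hp0.le)) (hg r (hR.trans hr.1) (c.1 + (R - r) * v.1, c.2 + (R - r) * v.2))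
        have h2 := le_abs_self (cntc H (c.1 + (R - r) * v.1, c.2 + (R - r) * v.2) r - area H * r ^ 2)
        have h3 := hstep R r hR0.le le_rfl hr.1 hr.2
        linarith
      have h4 := from_moment hp hD0 hR hE0 hgr (by
        refine le_trans ?_ (hint' R hR)
        refine lintegral_mono_set (Icc_subset_Icc le_rfl ?_)
        show R + h ≤ 2 * R
        linarith)
      refine h4.trans ?_
      have : 0 ≤ 6 * area H * P := by positivity
      nlinarith
  -- below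
  have hlo : -(cntc H c R - area H * R ^ 2) ≤ (2 * (D + 1) + 6 * area H + 4 * area H) * P := by
    have hcn : 0 ≤ cntc H c R := Nat.cast_nonneg _
    by_cases hR2 : R ≤ 2
    · have h1 : area H * R ^ 2 ≤ 4 * area H := by
        have h0 : R ^ 2 ≤ 4 := by nlinarith
        nlinarith
      have h2 : 4 * area H ≤ 4 * area H * P := by nlinarith
      have h3 : 0 ≤ (2 * (D + 1) + 6 * area H) * P := by positivity
      nlinarith
    · rw [not_le] at hR2
      by_cases hE : -(cntc H c R - area H * R ^ 2) ≤ 6 * area H * R ^ (1 / 2 : ℝ)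
      · refine hE.trans ?_
        have : 6 * area H * R ^ (1 / 2 : ℝ) ≤ 6 * area H * P := mul_le_mul_of_nonneg_left hP1 (by positivity)
        nlinarith
      · rw [not_le] at hE
        set E : ℝ := -(cntc H c R - area H * R ^ 2) with hEd
        have hE0 : 0 ≤ E := le_trans (by positivity) hE.le
        have hgr : ∀ r ∈ Icc (R - h) ((R - h) + R ^ (-(1 / 2) : ℝ)), ENNReal.ofReal ((E / 2) ^ p) ≤ g r := by
          intro r hr
          have hr2 : r ≤ R := by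
            have := hr.2
            linarith
          -- `c = c' + (r - R) v` with `c' = c + (R - r) v`
          have h1 := cntc_mono hv hr2 (c.1 + (R - r) * v.1, c.2 + (R - r) * v.2)
          have hc : (((c.1 + (R - r) * v.1, c.2 + (R - r) * v.2) : ℝ × ℝ).1 + (r - R) * v.1,
              ((c.1 + (R - r) * v.1, c.2 + (R - r) * v.2) : ℝ × ℝ).2 + (r - R) * v.2) = c := by
            ext
            · show c.1 + (R - r) * v.1 + (r - R) * v.1 = c.1
              ring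
            · show c.2 + (R - r) * v.2 + (r - R) * v.2 = c.2
              ring
          rw [hc] at h1
          have hr1 : 1 ≤ r := by
            have := hr.1
            linarith
          refine le_trans (ENNReal.ofReal_le_ofReal (Real.rpow_le_rpow (by linarith) ?_ hp0.le)) (hg r hr1 (c.1 + (R - r) * v.1, c.2 + (R - r) * v.2))
          have h2 := neg_abs_le (cntc H (c.1 + (R - r) * v.1, c.2 + (R - r) * v.2) r - area H * r ^ 2)
          have h3 := hstep r R (by linarith) hr2 hr2 (by linarith [hr.1])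
          linarith
        have h4 := from_moment hp hD0 hR hE0 hgr (by
          have h5 : ∫⁻ r in Icc (R - h) (R - h + R ^ (-(1 / 2) : ℝ)), g r ≤ ∫⁻ r in Icc (R / 2) (2 * (R / 2)), g r :=
            lintegral_mono_set (Icc_subset_Icc (by linarith) (by
              show R - h + h ≤ 2 * (R / 2)
              linarith))
          refine h5.trans ((hint' (R / 2) (by linarith)).trans (ENNReal.ofReal_le_ofReal ?_))
          refine mul_le_mul_of_nonneg_left ?_ hD0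
          exact Real.rpow_le_rpow (by positivity) (by linarith) (by positivity))
        refine h4.trans ?_
        have : 0 ≤ (6 * area H + 4 * area H) * P := by positivity
        nlinarith
  rw [abs_le]
  constructor
  · linarith
  · refine hup.trans ?_
    have : 0 ≤ 4 * area H * P := by positivity
    nlinarith

/-- a point of `D` -/
theorem exists_pt {H : ℝ → ℝ} (h2 : ContDiff ℝ 2 H) (hp : Function.Periodic H (2 * π)) (hr : ∀ θ, 0 < H θ + deriv (deriv H) θ) :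
    ∃ v : ℝ × ℝ, ∀ t : ℝ, v.1 * cos t + v.2 * sin t ≤ H t := by
  obtain ⟨v, hv⟩ := Pool.Agent.Helper11.AD.exists_inner h2 hp hr
  exact ⟨v, fun t => by have := hv.pos t; linarith⟩

/-- one moment, real exponent -/
theorem bound_of_real {H : ℝ → ℝ} (h2 : ContDiff ℝ 2 H) (hper : Function.Periodic H (2 * π)) (hr : ∀ θ, 0 < H θ + deriv (deriv H) θ) {p : ℝ}
    (hp : 1 ≤ p) (h : ∃ C : ℝ, ∀ X : ℝ, 1 ≤ X → ∫⁻ R in Icc X (2 * X), ⨆ c : ℝ × ℝ, ENNReal.ofReal (|cntc H c R - area H * R ^ 2| ^ p) ≤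
      ENNReal.ofReal (C * X ^ (1 + p / 2))) :
    ∃ C : ℝ, ∀ R : ℝ, 1 ≤ R → ∀ c : ℝ × ℝ, |cntc H c R - area H * R ^ 2| ≤ C * R ^ (1 / 2 + 3 / (2 * p)) := by
  obtain ⟨v, hv⟩ := exists_pt h2 hper hr
  obtain ⟨C, hC⟩ := h
  exact bound_of_moment hv hp (fun R _ c => le_iSup (fun c : ℝ × ℝ => ENNReal.ofReal (|cntc H c R - area H * R ^ 2| ^ p)) c) hC

/-- one moment `mom J` -/
theorem bound_of_mom {H : ℝ → ℝ} (h2 : ContDiff ℝ 2 H) (hper : Function.Periodic H (2 * π)) (hr : ∀ θ, 0 < H θ + deriv (deriv H) θ) {J : ℕ}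
    (hJ : 1 ≤ J) (h : ∃ C : ℝ, ∀ X : ℝ, 1 ≤ X → Pool.Agent.Helper92.MM.mom J H X ≤ ENNReal.ofReal (C * X ^ (1 + J))) :
    ∃ C : ℝ, ∀ R : ℝ, 1 ≤ R → ∀ c : ℝ × ℝ, |cntc H c R - area H * R ^ 2| ≤ C * R ^ (1 / 2 + 3 / (4 * J) : ℝ) := by
  obtain ⟨C, hC⟩ := h
  have hJ1 : (1 : ℝ) ≤ J := by exact_mod_cast hJ
  have h3 := bound_of_real h2 hper hr (p := ((2 * J : ℕ) : ℝ)) (by push_cast; linarith) ⟨C, fun X hX => ?_⟩
  · obtain ⟨C', hC'⟩ := h3
    refine ⟨C', fun R hR c => ?_⟩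
    have h4 := hC' R hR c
    have h5 : (1 / 2 + 3 / (2 * ((2 * J : ℕ) : ℝ)) : ℝ) = 1 / 2 + 3 / (4 * J) := by
      push_cast
      ring
    rwa [h5] at h4
  · have h4 := hC X hX
    unfold Pool.Agent.Helper92.MM.mom at h4
    have h5 : (X ^ (1 + J) : ℝ) = X ^ (1 + ((2 * J : ℕ) : ℝ) / 2) := by
      rw [← Real.rpow_natCast]
      congr 1
      push_cast
      ring
    rw [← h5]
    simpa only [Real.rpow_natCast] using h4

/-- all moments imply the bound with every exponent above `1/2` -/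
theorem bound_of_moms {H : ℝ → ℝ} (h2 : ContDiff ℝ 2 H) (hper : Function.Periodic H (2 * π)) (hr : ∀ θ, 0 < H θ + deriv (deriv H) θ)
    (h : ∀ J : ℕ, ∃ C : ℝ, ∀ X : ℝ, 1 ≤ X → Pool.Agent.Helper92.MM.mom J H X ≤ ENNReal.ofReal (C * X ^ (1 + J))) {ε : ℝ} (hε : 0 < ε) :
    ∃ C : ℝ, ∀ R : ℝ, 1 ≤ R → ∀ c : ℝ × ℝ, |cntc H c R - area H * R ^ 2| ≤ C * R ^ (1 / 2 + ε) := by
  obtain ⟨J, hJ⟩ := exists_nat_gt (1 / ε)
  have hJ0 : (0 : ℝ) < J := lt_trans (by positivity) hJ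
  have hJ1 : 1 ≤ J := by exact_mod_cast hJ0
  obtain ⟨C, hC⟩ := bound_of_mom h2 hper hr hJ1 (h J)
  refine ⟨max C 0, fun R hR c => ?_⟩
  refine (hC R hR c).trans (mul_le_mul (le_max_left _ _) (Real.rpow_le_rpow_of_exponent_le hR ?_) (by positivity) (le_max_right _ _))
  have h1 : 1 < J * ε := by
    rwa [div_lt_iff₀ hε] at hJ
  have h2 : 3 / (4 * (J : ℝ)) ≤ ε := by
    rw [div_le_iff₀ (by positivity)]
    nlinarith
  linarith

end Pool.Agent.Helper60.AD
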