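import Pool.Agent.Helper22.AE.C3
import Pool.Agent.Helper92.GC.D2

/-!
# AD (MP_fb29e9_nt): almost every perturbation of a `C²` support function, all centres. Definitions

Base notation: `Pool.Agent.Helper22.AE` (`ee`, `nk`, `tk`, `zk`, `blk`, `arcSet`, `gph`, `Hw`, `k0`, `gm`, `Mom`, `gapT`), `dt`, `sqa` (GC), `cntc` (AC).
-/

open MeasureTheory Real Set Filter Topology

set_option autoImplicit false

namespace Pool.Agent.Helper60.AD

open Pool.Agent.Helper22.AE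
open Pool.Agent.Helper92.GC (dt sqa)

/-- the exponential sum over `B` with the centre `c` -/
noncomputable def Sc (h : ℝ → ℝ) (B : Finset (ℤ × ℤ)) (b : ℤ × ℤ → ℂ) (R α : ℝ) (c : ℝ × ℝ) : ℂ :=
  ∑ k ∈ B, b k * ee (-(R * (nk k * gph h k α))) * ee (dt k c)

/-- the frequencies of the product -/
noncomputable def fq {J : ℕ} (A : Fin J → Finset (ℤ × ℤ)) : Finset (ℤ × ℤ) :=
  (Fintype.piFinset A).image (fun k => ∑ t, k t)

/-- the coefficient of the frequency `m` in the product of the `J` sums -/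
noncomputable def co {J : ℕ} (h : ℝ → ℝ) (A : Fin J → Finset (ℤ × ℤ)) (b : Fin J → ℤ × ℤ → ℂ) (R α : ℝ) (m : ℤ × ℤ) : ℂ :=
  ∑ k ∈ (Fintype.piFinset A).filter (fun k => ∑ t, k t = m), ∏ t, (b t (k t) * ee (-(R * (nk (k t) * gph h (k t) α))))

/-- the mean over the centres of the square of the product (Parseval) -/
noncomputable def Yq {J : ℕ} (h : ℝ → ℝ) (A : Fin J → Finset (ℤ × ℤ)) (b : Fin J → ℤ × ℤ → ℂ) (R α : ℝ) : ℝ :=
  ∑ m ∈ fq A, ‖co h A b R α m‖ ^ 2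

/-- the index set of the basis functions -/
abbrev Ix (L : ℕ) := Option (Fin L ⊕ Fin L)

/-- the basis functions `H₀`, `cos (l θ)`, `sin (l θ)` -/
noncomputable def bas {L : ℕ} (H₀ : ℝ → ℝ) : Ix L → ℝ → ℝ
  | none => H₀
  | some (Sum.inl l) => fun θ => cos ((l : ℕ) * θ)
  | some (Sum.inr l) => fun θ => sin ((l : ℕ) * θ)

/-- the coefficients -/
def cf {L : ℕ} (w : (Fin L → ℝ) × (Fin L → ℝ)) : Ix L → ℝ
  | none => 1
  | some (Sum.inl l) => w.1 l
  | some (Sum.inr l) => w.2 l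

/-- the phase `nk k * gph h k α = k · bx h (tk k + α)` minus its linear part `k · bx h (θ + α)` at the direction `θ` -/
noncomputable def lam (h : ℝ → ℝ) (θ α : ℝ) (k : ℤ × ℤ) : ℝ := nk k * gph h k α - dt k (bx h (θ + α))

/-- the weight `b` with the factor `t` multiplied by the phase of the basis function `i` divided by `q` -/
noncomputable def wt {L J : ℕ} (H₀ : ℝ → ℝ) (b : ℤ × ℤ → ℂ) (θ α q : ℝ) (t : Fin J) (i : Ix L) : Fin J → ℤ × ℤ → ℂ :=
  Function.update (fun _ => b) t (fun k => b k * ((lam (bas H₀ i) θ α k / q : ℝ) : ℂ))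

/-- the integral over the radii in the Sobolev inequality -/
noncomputable def Ys {L J : ℕ} (H₀ : ℝ → ℝ) (A : Fin J → Finset (ℤ × ℤ)) (b : ℤ × ℤ → ℂ) (θ q R₀ α : ℝ)
    (w : (Fin L → ℝ) × (Fin L → ℝ)) : ℝ :=
  ∫ R in Icc (R₀ / 2) (4 * R₀), (Yq (Hw H₀ w) A (fun _ => b) R α +
    ∑ t : Fin J, ∑ i : Ix L, Yq (Hw H₀ w) A (wt H₀ b θ α q t i) R α)

theorem Hw_bas {L : ℕ} (H₀ : ℝ → ℝ) (w : (Fin L → ℝ) × (Fin L → ℝ)) : Hw H₀ w = fun θ => ∑ i : Ix L, cf w i * bas H₀ i θ := by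
  funext θ
  unfold Hw
  rw [Fintype.sum_option, Fintype.sum_sum_type]
  simp only [cf, bas, one_mul]
  rw [Finset.sum_add_distrib]

theorem bas_smooth {L : ℕ} {H₀ : ℝ → ℝ} (h0 : ContDiff ℝ 2 H₀) (i : Ix L) : ContDiff ℝ 2 (bas H₀ i) := by
  rcases i with _ | ⟨l | l⟩
  · exact h0
  · show ContDiff ℝ 2 fun θ => cos ((l : ℕ) * θ)
    fun_prop
  · show ContDiff ℝ 2 fun θ => sin ((l : ℕ) * θ)
    fun_prop

theorem bas_per {L : ℕ} {H₀ : ℝ → ℝ} (hp : Function.Periodic H₀ (2 * π)) (i : Ix L) : Function.Periodic (bas H₀ i) (2 * π) := by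
  rcases i with _ | ⟨l | l⟩
  · exact hp
  · intro θ
    show cos ((l : ℕ) * (θ + 2 * π)) = cos ((l : ℕ) * θ)
    rw [mul_add]
    exact Real.cos_add_nat_mul_two_pi _ _
  · intro θ
    show sin ((l : ℕ) * (θ + 2 * π)) = sin ((l : ℕ) * θ)
    rw [mul_add]
    exact Real.sin_add_nat_mul_two_pi _ _

theorem cf_abs_le {L : ℕ} (w : (Fin L → ℝ) × (Fin L → ℝ)) (i : Ix L) : |cf w i| ≤ max 1 ‖w‖ := by
  rcases i with _ | ⟨l | l⟩
  · show |(1 : ℝ)| ≤ _
    rw [abs_one]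
    exact le_max_left _ _
  · show |w.1 l| ≤ _
    exact ((norm_le_pi_norm w.1 l).trans (norm_fst_le w)).trans (le_max_right _ _)
  · show |w.2 l| ≤ _
    exact ((norm_le_pi_norm w.2 l).trans (norm_snd_le w)).trans (le_max_right _ _)

end Pool.Agent.Helper60.AD
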